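import Mathlib

set_option autoImplicit false

/-!
# Linear algebra of symmetric bilinear forms
-/

namespace Pool.Agent.R366.QD

open Module

variable {k : Type} [Field k] [CharZero k] {V : Type} [AddCommGroup V] [Module k V]
  [FiniteDimensional k V]

/-- five orthogonal nonisotropic vectors, the first two of which are given -/
lemma extend_orth (B : LinearMap.BilinForm k V) (hB : B.IsSymm)
    (w' : Fin 5 → V) (hw' : ∀ a, B (w' a) (w' a) ≠ 0) (hwo : ∀ a b, a ≠ b → B (w' a) (w' b) = 0)
    (u : Fin 2 → V) (hu : ∀ a, B (u a) (u a) ≠ 0) (huo : B (u 0) (u 1) = 0) :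
    ∃ w : Fin 3 → V, (∀ a, B (w a) (w a) ≠ 0) ∧ (∀ a b, a ≠ b → B (w a) (w b) = 0) ∧
      ∀ a b, B (w a) (u b) = 0 := by
  classical
  have hsymm : ∀ x y, B x y = B y x := fun x y => hB.eq x y
  have : Invertible (2 : k) := invertibleOfNonzero (by norm_num)
  let W : Submodule k V :=
    { carrier := {x | ∀ b, B x (u b) = 0}
      add_mem' := by
        intro x y hx hy b
        rw [map_add, LinearMap.add_apply, hx b, hy b, add_zero]
      zero_mem' := by intro b; rw [map_zero, LinearMap.zero_apply]
      smul_mem' := by
        intro c x hx b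
        rw [map_smul, LinearMap.smul_apply, hx b, smul_zero] }
  have hWm : ∀ x, x ∈ W ↔ ∀ b, B x (u b) = 0 := fun x => Iff.rfl
  obtain ⟨v, hv⟩ := LinearMap.BilinForm.exists_orthogonal_basis (B := B.restrict W)
    ⟨fun x y => hB.eq x y⟩
  have hv' : ∀ i j, i ≠ j → B (v i : V) (v j : V) = 0 := fun i j hij => hv hij
  set I : Finset (Fin (finrank k W)) := Finset.univ.filter fun i => B (v i : V) (v i : V) ≠ 0 with hI
  by_cases hcard : 3 ≤ I.card
  · obtain ⟨f⟩ : Nonempty (Fin 3 ↪ I) := by
      rw [Function.Embedding.nonempty_iff_card_le, Fintype.card_fin, Fintype.card_coe]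
      exact hcard
    refine ⟨fun a => (v (f a) : V), fun a => ?_, fun a b hab => ?_, fun a b => ?_⟩
    · exact (Finset.mem_filter.1 (f a).2).2
    · apply hv'
      intro h
      exact hab (f.injective (Subtype.ext h))
    · exact (hWm _).1 (v (f a)).2 b
  · exfalso
    push Not at hcard
    -- the map
    let Φ : (Fin 5 → k) →ₗ[k] ((Fin 2 → k) × (I → k)) :=
      { toFun := fun c => (fun b => B (∑ a, c a • w' a) (u b), fun i => B (∑ a, c a • w' a) (v i : V))
        map_add' := by
          intro c c'
          have h1 : ∑ a, (c + c') a • w' a = ∑ a, c a • w' a + ∑ a, c' a • w' a := by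
            rw [← Finset.sum_add_distrib]
            exact Finset.sum_congr rfl fun a _ => add_smul _ _ _
          refine Prod.ext (funext fun b => ?_) (funext fun i => ?_)
          · show B (∑ a, (c + c') a • w' a) (u b) = _
            rw [h1, map_add, LinearMap.add_apply]; rfl
          · show B (∑ a, (c + c') a • w' a) (v i : V) = _
            rw [h1, map_add, LinearMap.add_apply]; rfl
        map_smul' := by
          intro t c
          have h1 : ∑ a, (t • c) a • w' a = t • ∑ a, c a • w' a := by
            rw [Finset.smul_sum]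
            exact Finset.sum_congr rfl fun a _ => by rw [Pi.smul_apply, smul_eq_mul, mul_smul]
          refine Prod.ext (funext fun b => ?_) (funext fun i => ?_)
          · show B (∑ a, (t • c) a • w' a) (u b) = _
            rw [h1, map_smul, LinearMap.smul_apply]; rfl
          · show B (∑ a, (t • c) a • w' a) (v i : V) = _
            rw [h1, map_smul, LinearMap.smul_apply]; rfl }
    have hdim : finrank k ((Fin 2 → k) × (I → k)) < finrank k (Fin 5 → k) := by
      rw [finrank_prod, finrank_fintype_fun_eq_card, finrank_fintype_fun_eq_card,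
        finrank_fintype_fun_eq_card, Fintype.card_coe, Fintype.card_fin, Fintype.card_fin]
      omega
    obtain ⟨c, hc0, hc⟩ : ∃ c, c ≠ 0 ∧ Φ c = 0 := by
      have h1 := LinearMap.ker_ne_bot_of_finrank_lt (f := Φ) hdim
      obtain ⟨c, hc, hc0⟩ := Submodule.exists_mem_ne_zero_of_ne_bot h1
      exact ⟨c, hc0, LinearMap.mem_ker.1 hc⟩
    set x : V := ∑ a, c a • w' a with hx
    have hxu : ∀ b, B x (u b) = 0 := fun b => congrFun (congrArg Prod.fst hc) b
    have hxv : ∀ i ∈ I, B x (v i : V) = 0 := fun i hi => congrFun (congrArg Prod.snd hc) ⟨i, hi⟩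
    have hxW : x ∈ W := (hWm x).2 hxu
    have hall : ∀ i, B x (v i : V) = 0 := by
      intro i
      by_cases hi : i ∈ I
      · exact hxv i hi
      · have h0 : B (v i : V) (v i : V) = 0 := by
          by_contra h
          exact hi (Finset.mem_filter.2 ⟨Finset.mem_univ _, h⟩)
        have h1 : x = ∑ j, v.repr ⟨x, hxW⟩ j • (v j : V) := by
          have := v.sum_repr ⟨x, hxW⟩
          have h2 := congrArg (fun z : W => (z : V)) this
          simp only [Submodule.coe_sum, Submodule.coe_smul] at h2
          exact h2.symm
        rw [h1, map_sum, LinearMap.sum_apply]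
        refine Finset.sum_eq_zero fun j _ => ?_
        rw [map_smul, LinearMap.smul_apply]
        by_cases hij : j = i
        · rw [hij, h0, smul_zero]
        · rw [hv' j i hij, smul_zero]
    have hrad : ∀ y, B x y = 0 := by
      intro y
      set y' : V := y - ∑ b, (B y (u b) / B (u b) (u b)) • u b with hy'
      have huu : ∀ a b, a ≠ b → B (u a) (u b) = 0 := by
        intro a b hab
        fin_cases a <;> fin_cases b
        · exact absurd rfl hab
        · exact huo
        · rw [hsymm]; exact huo
        · exact absurd rfl hab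
      have hy'W : y' ∈ W := by
        rw [hWm]
        intro b
        rw [hy', map_sub, LinearMap.sub_apply, map_sum, LinearMap.sum_apply, sub_eq_zero]
        rw [Finset.sum_eq_single b]
        · rw [map_smul, LinearMap.smul_apply, smul_eq_mul, div_mul_cancel₀ _ (hu b)]
        · intro a _ hab
          rw [map_smul, LinearMap.smul_apply, huu a b hab, smul_zero]
        · intro h; exact absurd (Finset.mem_univ b) h
      have h1 : y' = ∑ j, v.repr ⟨y', hy'W⟩ j • (v j : V) := by
        have := v.sum_repr ⟨y', hy'W⟩
        have h2 := congrArg (fun z : W => (z : V)) this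
        simp only [Submodule.coe_sum, Submodule.coe_smul] at h2
        exact h2.symm
      have h2 : B x y' = 0 := by
        rw [h1, map_sum]
        exact Finset.sum_eq_zero fun j _ => by rw [map_smul, hall j, smul_zero]
      have h3 : y = y' + ∑ b, (B y (u b) / B (u b) (u b)) • u b := by rw [hy', sub_add_cancel]
      rw [h3, map_add, h2, zero_add, map_sum]
      exact Finset.sum_eq_zero fun b _ => by rw [map_smul, hxu b, smul_zero]
    apply hc0
    funext a
    have h1 := hrad (w' a)
    rw [hx, map_sum, LinearMap.sum_apply, Finset.sum_eq_single a] at h1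
    · rw [map_smul, LinearMap.smul_apply, smul_eq_mul] at h1
      rcases mul_eq_zero.1 h1 with h2 | h2
      · exact h2
      · exact absurd h2 (hw' a)
    · intro b _ hba
      rw [map_smul, LinearMap.smul_apply, hwo b a hba, smul_zero]
    · intro h; exact absurd (Finset.mem_univ a) h

omit [CharZero k] in
/-- completion to a basis -/
lemma complete {r : ℕ} (w : Fin r → V) (hw : LinearIndependent k w) :
    ∃ (r' : ℕ) (v : Fin r' → V) (ρ : Fin r' → V →ₗ[k] k), r + r' = finrank k V ∧
      (∀ x, x - ∑ l, ρ l x • v l ∈ Submodule.span k (Set.range w)) ∧ (∀ l a, ρ l (w a) = 0) ∧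
      ∀ l l', ρ l (v l') = if l' = l then 1 else 0 := by
  classical
  set U := Submodule.span k (Set.range w) with hU
  obtain ⟨U', hU'⟩ := Submodule.exists_isCompl U
  let b := finBasis k U'
  let π : V →ₗ[k] U' := Submodule.projectionOnto U' U hU'.symm
  have hπ1 : ∀ x : U', π x = x := fun x => Submodule.projectionOnto_apply_left hU'.symm x
  have hπ2 : ∀ x, x ∈ U → π x = 0 := fun x hx => (Submodule.projectionOnto_apply_eq_zero_iff hU'.symm).2 hx
  refine ⟨finrank k U', fun l => (b l : V), fun l => (b.coord l).comp π, ?_, ?_, ?_, ?_⟩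
  · have h1 := Submodule.finrank_add_eq_of_isCompl hU'
    rw [finrank_span_eq_card hw, Fintype.card_fin] at h1
    exact h1
  · intro x
    have h1 : ∑ l, ((b.coord l).comp π) x • (b l : V) = (π x : V) := by
      have := b.sum_repr (π x)
      have h2 := congrArg (fun z : U' => (z : V)) this
      simp only [Submodule.coe_sum, Submodule.coe_smul] at h2
      exact h2
    rw [h1]
    have h2 : π (x - (π x : V)) = 0 := by
      rw [map_sub, hπ1, sub_self]
    exact (Submodule.projectionOnto_apply_eq_zero_iff hU'.symm).1 h2
  · intro l a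
    show b.coord l (π (w a)) = 0
    rw [hπ2 _ (Submodule.subset_span ⟨a, rfl⟩), map_zero]
  · intro l l'
    show b.coord l (π (b l' : V)) = _
    rw [hπ1, Basis.coord_apply, Basis.repr_self, Finsupp.single_apply]

end Pool.Agent.R366.QD
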