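import Mathlib
import Pool.Agent.R366.QD.Lin
import Pool.Agent.R366.NF.Cases2

set_option autoImplicit false

/-!
# Polynomials that are constant along a linear space
-/

namespace Pool.Agent.R366.QD

open NumberField MvPolynomial Pool.Agent.R366.NF

open scoped Classical

variable {K : Type} [Field K] [NumberField K] {m r' : ℕ}

/-- `F` is constant along `w` -/
def Along (F : MvPolynomial (Fin m) (𝓞 K)) (w : Fin m → K) : Prop :=
  ∀ (c : K) (x : Fin m → K), aeval (x + c • w) F = aeval x F

omit [NumberField K] in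
lemma Along.smul {F : MvPolynomial (Fin m) (𝓞 K)} {w : Fin m → K} (h : Along F w) (t : K) :
    Along F (t • w) := by
  intro c x
  rw [smul_smul]
  exact h _ _

omit [NumberField K] in
lemma Along.span {r : ℕ} {F : MvPolynomial (Fin m) (𝓞 K)} {w : Fin r → Fin m → K}
    (h : ∀ a, Along F (w a)) (x y : Fin m → K) (hy : y ∈ Submodule.span K (Set.range w)) :
    aeval (x + y) F = aeval x F := by
  have key : ∀ y ∈ Submodule.span K (Set.range w), Along F y := by
    intro y hy
    induction hy using Submodule.span_induction with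
    | mem y hy => obtain ⟨a, rfl⟩ := hy; exact h a
    | zero => intro c x; rw [smul_zero, add_zero]
    | add y z _ _ h1 h2 => intro c x; rw [smul_add, ← add_assoc, h2, h1]
    | smul t y _ h1 => exact h1.smul t
  have := key y hy 1 x
  rwa [one_smul] at this

/-- integral coordinates modulo a linear space -/
lemma exists_red {r : ℕ} (w : Fin r → Fin m → K) (hw : LinearIndependent K w) :
    ∃ (r' : ℕ) (v R : Fin r' → Fin m → 𝓞 K) (D : ℤ), r + r' = m ∧ D ≠ 0 ∧
      (∀ x : Fin m → K, (D : K) • x - ∑ l, (∑ i, (R l i : K) * x i) • (fun i => (v l i : K)) ∈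
        Submodule.span K (Set.range w)) ∧
      (∀ l a, ∑ i, (R l i : K) * w a i = 0) ∧
      ∀ (y : Fin r' → K) (l : Fin r'), ∑ i, (R l i : K) * (∑ l', (v l' i : K) * y l') = D * y l := by
  obtain ⟨r', v₀, ρ, h1, h2, h3, h4⟩ := complete w hw
  rw [Module.finrank_fintype_fun_eq_card, Fintype.card_fin] at h1
  obtain ⟨D₁, hD₁, hint₁⟩ := Pool.Agent.R366.UC.clear
    (Finset.univ.image fun z : Fin r' × Fin m => v₀ z.1 z.2)
  have hint₁' : ∀ l i, IsIntegral ℤ ((D₁ : K) * v₀ l i) := fun l i =>
    hint₁ _ (Finset.mem_image_of_mem (fun z : Fin r' × Fin m => v₀ z.1 z.2) (Finset.mem_univ (l, i)))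
  have hD₁K : (D₁ : K) ≠ 0 := Int.cast_ne_zero.2 hD₁
  obtain ⟨D, hD, hint⟩ := Pool.Agent.R366.UC.clear
    (Finset.univ.image fun z : Fin r' × Fin m => ρ z.1 (Pi.single z.2 1) / D₁)
  have hint' : ∀ l i, IsIntegral ℤ ((D : K) * (ρ l (Pi.single i 1) / D₁)) := fun l i =>
    hint _ (Finset.mem_image_of_mem (fun z : Fin r' × Fin m => ρ z.1 (Pi.single z.2 1) / D₁)
      (Finset.mem_univ (l, i)))
  have hDK : (D : K) ≠ 0 := Int.cast_ne_zero.2 hD
  let v : Fin r' → Fin m → 𝓞 K := fun l i => ⟨_, hint₁' l i⟩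
  let R : Fin r' → Fin m → 𝓞 K := fun l i => ⟨_, hint' l i⟩
  have hv : ∀ l i, (v l i : K) = D₁ * v₀ l i := fun l i => rfl
  have hR : ∀ l i, (R l i : K) = D * (ρ l (Pi.single i 1) / D₁) := fun l i => rfl
  have hρ : ∀ l (x : Fin m → K), ∑ i, (R l i : K) * x i = D / D₁ * ρ l x := by
    intro l x
    have e1 : x = ∑ i, x i • (Pi.single i (1 : K) : Fin m → K) := by
      funext j
      rw [Finset.sum_apply]
      simp [Pi.single_apply]
    conv_rhs => rw [e1]
    rw [map_sum, Finset.mul_sum]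
    refine Finset.sum_congr rfl fun i _ => ?_
    rw [hR, map_smul, smul_eq_mul]
    field_simp
  refine ⟨r', v, R, D, h1, hD, fun x => ?_, fun l a => ?_, fun y l => ?_⟩
  · have e1 : (D : K) • x - ∑ l, (∑ i, (R l i : K) * x i) • (fun i => (v l i : K)) =
        (D : K) • (x - ∑ l, ρ l x • v₀ l) := by
      rw [smul_sub, Finset.smul_sum]
      congr 1
      refine Finset.sum_congr rfl fun l _ => ?_
      rw [hρ]
      funext i
      simp only [Pi.smul_apply, smul_eq_mul, hv]
      field_simp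
    rw [e1]
    exact Submodule.smul_mem _ _ (h2 x)
  · rw [hρ, h3, mul_zero]
  · rw [hρ l (fun i => ∑ l', (v l' i : K) * y l')]
    have e1 : (fun i => ∑ l', (v l' i : K) * y l') = ∑ l', ((D₁ : K) * y l') • v₀ l' := by
      funext i
      rw [Finset.sum_apply]
      refine Finset.sum_congr rfl fun l' _ => ?_
      rw [Pi.smul_apply, smul_eq_mul, hv]
      ring
    rw [e1, map_sum]
    have e2 : ∑ l', ρ l (((D₁ : K) * y l') • v₀ l') = D₁ * y l := by
      rw [Finset.sum_eq_single l]
      · rw [map_smul, h4, if_pos rfl, smul_eq_mul, mul_one]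
      · intro l' _ hl'
        rw [map_smul, h4, if_neg hl', smul_zero]
      · intro h; exact absurd (Finset.mem_univ l) h
    rw [e2]
    field_simp

/-- restriction of polynomials to a linear space -/
noncomputable def red (v : Fin r' → Fin m → 𝓞 K) :
    MvPolynomial (Fin m) (𝓞 K) →ₐ[𝓞 K] MvPolynomial (Fin r') (𝓞 K) :=
  aeval fun i => ∑ l, C (v l i) * X l

/-- restriction of polynomials to a linear space, over the field -/
noncomputable def redK (v : Fin r' → Fin m → 𝓞 K) :
    MvPolynomial (Fin m) K →ₐ[K] MvPolynomial (Fin r') K :=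
  aeval fun i => ∑ l, C (v l i : K) * X l

/-- pull-back of polynomials -/
noncomputable def blow (R : Fin r' → Fin m → 𝓞 K) :
    MvPolynomial (Fin r') K →ₐ[K] MvPolynomial (Fin m) K :=
  aeval fun l => ∑ i, C (R l i : K) * X i

omit [NumberField K] in
lemma toK_red (v : Fin r' → Fin m → 𝓞 K) (F : MvPolynomial (Fin m) (𝓞 K)) :
    toK (red v F) = redK v (toK F) := by
  have h : (toK (K := K) (M := r')).comp (red v : MvPolynomial (Fin m) (𝓞 K) →+* _) =
      (redK v : MvPolynomial (Fin m) K →+* _).comp toK := by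
    refine MvPolynomial.ringHom_ext (fun r => ?_) fun i => ?_
    · simp [red, redK]
    · simp [red, redK, map_sum]
  exact congrArg (fun g : MvPolynomial (Fin m) (𝓞 K) →+* MvPolynomial (Fin r') K => g F) h

omit [NumberField K] in
lemma red_hom (v : Fin r' → Fin m → 𝓞 K) {F : MvPolynomial (Fin m) (𝓞 K)} {k : ℕ}
    (hF : F.IsHomogeneous k) : (red v F).IsHomogeneous k := by
  have h1 := hF.aeval (fun i => ∑ l, C (v l i) * X l) (n := 1)
    (fun i => IsHomogeneous.sum _ _ _ fun l _ => by
      have := (isHomogeneous_C (Fin r') (v l i)).mul (isHomogeneous_X (𝓞 K) l)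
      rwa [zero_add] at this)
  rw [one_mul] at h1
  exact h1

omit [NumberField K] in
lemma eval_red (v : Fin r' → Fin m → 𝓞 K) (F : MvPolynomial (Fin m) (𝓞 K)) (y : Fin r' → 𝓞 K) :
    eval y (red v F) = eval (fun i => ∑ l, v l i * y l) F := by
  have h : (eval y).comp (red v : MvPolynomial (Fin m) (𝓞 K) →+* _) =
      eval (fun i => ∑ l, v l i * y l) := by
    refine MvPolynomial.ringHom_ext (fun r => ?_) fun i => ?_
    · simp [red]
    · simp [red, map_sum]
  exact congrArg (fun g : MvPolynomial (Fin m) (𝓞 K) →+* 𝓞 K => g F) h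

omit [NumberField K] in
lemma eval_redK (v : Fin r' → Fin m → 𝓞 K) (F : MvPolynomial (Fin m) K) (y : Fin r' → K) :
    eval y (redK v F) = eval (fun i => ∑ l, (v l i : K) * y l) F := by
  have h : (eval y).comp (redK v : MvPolynomial (Fin m) K →+* _) =
      eval (fun i => ∑ l, (v l i : K) * y l) := by
    refine MvPolynomial.ringHom_ext (fun r => ?_) fun i => ?_
    · simp [redK]
    · simp [redK, map_sum]
  exact congrArg (fun g : MvPolynomial (Fin m) K →+* K => g F) h

omit [NumberField K] in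
lemma eval_blow (R : Fin r' → Fin m → 𝓞 K) (g : MvPolynomial (Fin r') K) (x : Fin m → K) :
    eval x (blow R g) = eval (fun l => ∑ i, (R l i : K) * x i) g := by
  have h : (eval x).comp (blow R : MvPolynomial (Fin r') K →+* _) =
      eval (fun l => ∑ i, (R l i : K) * x i) := by
    refine MvPolynomial.ringHom_ext (fun r => ?_) fun i => ?_
    · simp [blow]
    · simp [blow, map_sum]
  exact congrArg (fun g' : MvPolynomial (Fin r') K →+* K => g' g) h

/-- the data of a reduction -/
structure Red {r : ℕ} (w : Fin r → Fin m → K) (v R : Fin r' → Fin m → 𝓞 K) (D : ℤ) : Prop where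
  hD : D ≠ 0
  mem : ∀ x : Fin m → K, (D : K) • x - ∑ l, (∑ i, (R l i : K) * x i) • (fun i => (v l i : K)) ∈
        Submodule.span K (Set.range w)
  zero : ∀ l a, ∑ i, (R l i : K) * w a i = 0
  inv : ∀ (y : Fin r' → K) (l : Fin r'), ∑ i, (R l i : K) * (∑ l', (v l' i : K) * y l') = D * y l

variable {r : ℕ} {w : Fin r → Fin m → K} {v R : Fin r' → Fin m → 𝓞 K} {D : ℤ}

omit [NumberField K] in
lemma aeval_eq_eval (F : MvPolynomial (Fin m) (𝓞 K)) (x : Fin m → K) :
    aeval x F = eval x (toK F) := by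
  rw [aeval_def, eval_map]

omit [NumberField K] in
lemma eval_smul' (F : MvPolynomial (Fin m) (𝓞 K)) {k : ℕ} (hk : F.IsHomogeneous k) (c : K)
    (x : Fin m → K) : aeval (c • x) F = c ^ k * aeval x F := by
  rw [MvPolynomial.aeval_def, MvPolynomial.aeval_def, MvPolynomial.eval₂_eq,
    MvPolynomial.eval₂_eq, Finset.mul_sum]
  refine Finset.sum_congr rfl fun d hd => ?_
  have hdk : ∑ i ∈ d.support, d i = k := by
    have := hk (MvPolynomial.mem_support_iff.mp hd)
    rw [Finsupp.weight_apply] at this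
    simpa [Finsupp.sum] using this
  have h13 : ∏ i ∈ d.support, (c • x) i ^ d i = c ^ k * ∏ i ∈ d.support, x i ^ d i := by
    rw [← hdk, ← Finset.prod_pow_eq_pow_sum, ← Finset.prod_mul_distrib]
    exact Finset.prod_congr rfl fun i _ => by rw [Pi.smul_apply, smul_eq_mul, mul_pow]
  rw [h13, mul_left_comm]

omit [NumberField K] in
lemma Red.evalK (h : Red w v R D) {F : MvPolynomial (Fin m) (𝓞 K)} {k : ℕ} (hF : F.IsHomogeneous k)
    (hw : ∀ a, Along F (w a)) (x : Fin m → K) :
    eval (fun l => ∑ i, (R l i : K) * x i) (toK (red v F)) = (D : K) ^ k * eval x (toK F) := by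
  rw [toK_red, eval_redK, ← aeval_eq_eval, ← aeval_eq_eval, ← eval_smul' F hF]
  have h1 := h.mem x
  have h2 : (D : K) • x = (fun i => ∑ l, (v l i : K) * (∑ i, (R l i : K) * x i)) +
      ((D : K) • x - ∑ l, (∑ i, (R l i : K) * x i) • (fun i => (v l i : K))) := by
    funext i
    simp only [Pi.add_apply, Pi.sub_apply, Pi.smul_apply, smul_eq_mul, Finset.sum_apply]
    have : ∀ l, (v l i : K) * (∑ i, (R l i : K) * x i) = (∑ i, (R l i : K) * x i) * (v l i : K) :=
      fun l => mul_comm _ _
    simp only [this]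
    ring
  rw [h2, Along.span hw _ _ h1]

omit [NumberField K] in
lemma coe_eval (F : MvPolynomial (Fin m) (𝓞 K)) (y : Fin m → 𝓞 K) :
    ((eval y F : 𝓞 K) : K) = eval (fun i => (y i : K)) (toK F) := by
  rw [← aeval_eq_eval]
  have h : (aeval (fun i => (y i : K)) : MvPolynomial (Fin m) (𝓞 K) →ₐ[𝓞 K] K) =
      (Algebra.ofId (𝓞 K) K).comp (aeval y) := by
    refine MvPolynomial.algHom_ext fun i => ?_
    simp [Algebra.ofId_apply]
  rw [h]
  rfl

omit [NumberField K] in
lemma Red.eval (h : Red w v R D) {F : MvPolynomial (Fin m) (𝓞 K)} {k : ℕ} (hF : F.IsHomogeneous k)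
    (hw : ∀ a, Along F (w a)) (x : Fin m → 𝓞 K) :
    eval (fun l => ∑ i, R l i * x i) (red v F) = (D : 𝓞 K) ^ k * MvPolynomial.eval x F := by
  apply RingOfIntegers.coe_injective
  have h1 := h.evalK hF hw (fun i => (x i : K))
  rw [← coe_eval] at h1
  show ((MvPolynomial.eval (fun l => ∑ i, R l i * x i) (red v F) : 𝓞 K) : K) = _
  rw [coe_eval]
  have h2 : (fun l => (((∑ i, R l i * x i : 𝓞 K)) : K)) = fun l => ∑ i, (R l i : K) * (x i : K) := by
    funext l; push_cast; rfl
  rw [h2, h1]
  push_cast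
  rfl

omit [NumberField K] in
lemma Red.blow_red (h : Red w v R D) {F : MvPolynomial (Fin m) (𝓞 K)} {k : ℕ}
    (hF : F.IsHomogeneous k) (hw : ∀ a, Along F (w a)) [Infinite K] :
    blow R (toK (red v F)) = C ((D : K) ^ k) * toK F := by
  refine MvPolynomial.funext fun x => ?_
  rw [eval_blow, h.evalK hF hw, map_mul, eval_C]

lemma Red.dvd (h : Red w v R D) {F G : MvPolynomial (Fin m) (𝓞 K)} {k e : ℕ}
    (hF : F.IsHomogeneous k) (hwF : ∀ a, Along F (w a)) (hG : G.IsHomogeneous e)
    (hwG : ∀ a, Along G (w a)) (hd : toK (red v F) ∣ toK (red v G)) : toK F ∣ toK G := by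
  have hDK : (D : K) ≠ 0 := Int.cast_ne_zero.2 h.hD
  have h1 := map_dvd (blow R) hd
  rw [h.blow_red hF hwF, h.blow_red hG hwG] at h1
  have u1 : IsUnit (C ((D : K) ^ e) : MvPolynomial (Fin m) K) :=
    (isUnit_iff_ne_zero.2 (pow_ne_zero _ hDK)).map C
  exact (dvd_of_mul_left_dvd h1).trans (u1.dvd_mul_left.1 dvd_rfl)

lemma Red.sub_blow (h : Red w v R D) (g : MvPolynomial (Fin r') K) :
    redK v (blow R g) = aeval (fun l => C (D : K) * X l) g := by
  refine MvPolynomial.funext fun y => ?_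
  rw [eval_redK, eval_blow]
  have h1 : (fun l => ∑ i, (R l i : K) * ∑ l', (v l' i : K) * y l') = fun l => (D : K) * y l := by
    funext l; exact h.inv y l
  rw [h1]
  have h2 : (MvPolynomial.eval y).comp ((aeval (fun l => C (D : K) * X l) :
      MvPolynomial (Fin r') K →ₐ[K] MvPolynomial (Fin r') K) : MvPolynomial (Fin r') K →+* _) =
      MvPolynomial.eval (fun l => (D : K) * y l) := by
    refine MvPolynomial.ringHom_ext (fun r => ?_) fun i => ?_
    · simp
    · simp
  exact (congrArg (fun g' : MvPolynomial (Fin r') K →+* K => g' g) h2).symm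

lemma Red.isUnit (h : Red w v R D) {g : MvPolynomial (Fin r') K} (hg : IsUnit (blow R g)) :
    IsUnit g := by
  have hDK : (D : K) ≠ 0 := Int.cast_ne_zero.2 h.hD
  have h1 := hg.map (redK v)
  rw [h.sub_blow] at h1
  have h2 := h1.map (aeval (fun l => C ((D : K)⁻¹) * X l) :
      MvPolynomial (Fin r') K →ₐ[K] MvPolynomial (Fin r') K)
  have h3 : (aeval (fun l => C ((D : K)⁻¹) * X l) : MvPolynomial (Fin r') K →ₐ[K]
      MvPolynomial (Fin r') K) ((aeval (fun l => C (D : K) * X l) : MvPolynomial (Fin r') K →ₐ[K]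
      MvPolynomial (Fin r') K) g) = g := by
    have h4 : ((aeval (fun l => C ((D : K)⁻¹) * X l) : MvPolynomial (Fin r') K →ₐ[K]
        MvPolynomial (Fin r') K).comp (aeval (fun l => C (D : K) * X l) :
        MvPolynomial (Fin r') K →ₐ[K] MvPolynomial (Fin r') K)) = AlgHom.id K _ := by
      refine MvPolynomial.algHom_ext fun i => ?_
      rw [AlgHom.comp_apply, aeval_X, map_mul, aeval_X, AlgHom.id_apply]
      rw [← algebraMap_eq, AlgHom.commutes, algebraMap_eq, ← mul_assoc, ← C_mul,
        mul_inv_cancel₀ hDK, C_1, one_mul]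
    have h5 := congrArg (fun f : MvPolynomial (Fin r') K →ₐ[K] MvPolynomial (Fin r') K => f g) h4
    exact h5
  rwa [h3] at h2

lemma Red.irreducible (h : Red w v R D) {F : MvPolynomial (Fin m) (𝓞 K)} {k : ℕ}
    (hF : F.IsHomogeneous k) (hw : ∀ a, Along F (w a)) (hirr : Irreducible (toK F)) :
    Irreducible (toK (red v F)) := by
  have hDK : (D : K) ≠ 0 := Int.cast_ne_zero.2 h.hD
  have u1 : IsUnit (C ((D : K) ^ k) : MvPolynomial (Fin m) K) :=
    (isUnit_iff_ne_zero.2 (pow_ne_zero _ hDK)).map C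
  have hbl := h.blow_red hF hw
  have hirr' : Irreducible (C ((D : K) ^ k) * toK F) := (irreducible_isUnit_mul u1).2 hirr
  refine ⟨fun hu => ?_, fun a b hab => ?_⟩
  · have := hu.map (blow R)
    rw [hbl] at this
    exact hirr'.not_isUnit this
  · have h1 := congrArg (blow R) hab
    rw [hbl, map_mul] at h1
    rcases hirr'.isUnit_or_isUnit h1 with h2 | h2
    · exact Or.inl (h.isUnit h2)
    · exact Or.inr (h.isUnit h2)

end Pool.Agent.R366.QD
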