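import Mathlib
import Pool.Agent.R366.QD.Red

set_option autoImplicit false

/-!
# Quadratic forms over number fields: integral orthogonal systems
-/

namespace Pool.Agent.R366.QD

open NumberField MvPolynomial Pool.Agent.R366.NF

open scoped Classical

section bil

variable {R : Type} [CommRing R] {m : ℕ}

/-- the bilinear form of a matrix -/
def bil (A : Fin m → Fin m → R) (x y : Fin m → R) : R := ∑ i, ∑ j, A i j * x i * y j

lemma bil_symm {A : Fin m → Fin m → R} (hA : ∀ i j, A i j = A j i) (x y : Fin m → R) :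
    bil A x y = bil A y x := by
  unfold bil
  rw [Finset.sum_comm]
  refine Finset.sum_congr rfl fun i _ => Finset.sum_congr rfl fun j _ => ?_
  rw [hA j i]; ring

lemma bil_add_left (A : Fin m → Fin m → R) (x x' y : Fin m → R) :
    bil A (x + x') y = bil A x y + bil A x' y := by
  unfold bil
  rw [← Finset.sum_add_distrib]
  refine Finset.sum_congr rfl fun i _ => ?_
  rw [← Finset.sum_add_distrib]
  refine Finset.sum_congr rfl fun j _ => ?_
  rw [Pi.add_apply]; ring

lemma bil_smul_left (A : Fin m → Fin m → R) (c : R) (x y : Fin m → R) :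
    bil A (c • x) y = c * bil A x y := by
  unfold bil
  rw [Finset.mul_sum]
  refine Finset.sum_congr rfl fun i _ => ?_
  rw [Finset.mul_sum]
  refine Finset.sum_congr rfl fun j _ => ?_
  rw [Pi.smul_apply, smul_eq_mul]; ring

lemma bil_zero_left (A : Fin m → Fin m → R) (y : Fin m → R) : bil A 0 y = 0 := by
  unfold bil
  simp

lemma bil_sum_left {ι : Type} (s : Finset ι) (A : Fin m → Fin m → R) (x : ι → Fin m → R)
    (y : Fin m → R) : bil A (∑ a ∈ s, x a) y = ∑ a ∈ s, bil A (x a) y := by
  induction s using Finset.induction_on with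
  | empty => simp [bil_zero_left]
  | insert a s ha ih => rw [Finset.sum_insert ha, Finset.sum_insert ha, bil_add_left, ih]

lemma bil_sub_left (A : Fin m → Fin m → R) (x x' y : Fin m → R) :
    bil A (x - x') y = bil A x y - bil A x' y := by
  have h := bil_add_left A (x - x') x' y
  rw [sub_add_cancel] at h
  rw [h]; ring

end bil

variable {K : Type} [Field K] [NumberField K] {m r : ℕ}

/-- the matrix over the field -/
abbrev toM (A : Fin m → Fin m → 𝓞 K) : Fin m → Fin m → K := fun i j => (A i j : K)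

omit [NumberField K] in
lemma coe_bil (A : Fin m → Fin m → 𝓞 K) (x y : Fin m → 𝓞 K) :
    ((bil A x y : 𝓞 K) : K) = bil (toM A) (fun i => (x i : K)) (fun i => (y i : K)) := by
  unfold bil
  push_cast
  rfl

omit [NumberField K] in
lemma toBilin (A : Fin m → Fin m → K) (x y : Fin m → K) :
    Matrix.toBilin' (Matrix.of A) x y = bil A x y := by
  rw [Matrix.toBilin'_apply]
  unfold bil
  refine Finset.sum_congr rfl fun i _ => Finset.sum_congr rfl fun j _ => ?_
  rw [Matrix.of_apply]; ring

/-- an orthogonal system of integral nonisotropic vectors -/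
structure Orth (A : Fin m → Fin m → 𝓞 K) (w : Fin r → Fin m → 𝓞 K) : Prop where
  ne : ∀ a, bil A (w a) (w a) ≠ 0
  orth : ∀ a b, a ≠ b → bil A (w a) (w b) = 0

/-- the vectors over the field -/
abbrev toV (w : Fin r → Fin m → 𝓞 K) : Fin r → Fin m → K := fun a i => (w a i : K)

omit [NumberField K] in
lemma Orth.neK {A : Fin m → Fin m → 𝓞 K} {w : Fin r → Fin m → 𝓞 K} (h : Orth A w) (a : Fin r) :
    bil (toM A) (toV w a) (toV w a) ≠ 0 := by
  rw [← coe_bil]
  intro h0
  exact h.ne a (RingOfIntegers.coe_injective (by simpa using h0))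

omit [NumberField K] in
lemma Orth.orthK {A : Fin m → Fin m → 𝓞 K} {w : Fin r → Fin m → 𝓞 K} (h : Orth A w) {a b : Fin r}
    (hab : a ≠ b) : bil (toM A) (toV w a) (toV w b) = 0 := by
  rw [← coe_bil, h.orth a b hab]
  exact map_zero (algebraMap (𝓞 K) K)

omit [NumberField K] in
lemma Orth.indep {A : Fin m → Fin m → 𝓞 K} {w : Fin r → Fin m → 𝓞 K} (h : Orth A w) :
    LinearIndependent K (toV w) := by
  rw [Fintype.linearIndependent_iff]
  intro c hc a
  have h1 : bil (toM A) (∑ b, c b • toV w b) (toV w a) = 0 := by rw [hc, bil_zero_left]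
  rw [bil_sum_left, Finset.sum_eq_single a] at h1
  · rw [bil_smul_left] at h1
    rcases mul_eq_zero.1 h1 with h2 | h2
    · exact h2
    · exact absurd h2 (h.neK a)
  · intro b _ hba
    rw [bil_smul_left, h.orthK hba, mul_zero]
  · intro h'; exact absurd (Finset.mem_univ a) h'

/-- the fibres of the projection along an orthogonal system -/
lemma fibre_const {A : Fin m → Fin m → 𝓞 K} (hA : ∀ i j, A i j = A j i) {w : Fin r → Fin m → 𝓞 K}
    (h : Orth A w) (x x' : Fin m → 𝓞 K) (hx : bil A x x = 0) (hx' : bil A x' x' = 0)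
    (hd : (fun i => (x i : K) - (x' i : K)) ∈ Submodule.span K (Set.range (toV w))) :
    ∑ a, (∏ b ∈ Finset.univ.erase a, bil A (w b) (w b)) * bil A (w a) x ^ 2 =
      ∑ a, (∏ b ∈ Finset.univ.erase a, bil A (w b) (w b)) * bil A (w a) x' ^ 2 := by
  obtain ⟨γ, hγ⟩ := (Submodule.mem_span_range_iff_exists_fun K).1 hd
  have hAK : ∀ i j, toM A i j = toM A j i := fun i j => by
    show (A i j : K) = A j i
    rw [hA]
  have h1 : ∀ a, bil (toM A) (toV w a) (fun i => (x i : K)) -
      bil (toM A) (toV w a) (fun i => (x' i : K)) = γ a * bil (toM A) (toV w a) (toV w a) := by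
    intro a
    rw [bil_symm hAK _ (fun i => (x i : K)), bil_symm hAK _ (fun i => (x' i : K)), ← bil_sub_left]
    have e1 : ((fun i => (x i : K)) - fun i => (x' i : K)) = ∑ b, γ b • toV w b := by
      rw [hγ]; rfl
    rw [e1, bil_sum_left, Finset.sum_eq_single a]
    · rw [bil_smul_left]
    · intro b _ hba
      rw [bil_smul_left, h.orthK hba, mul_zero]
    · intro h'; exact absurd (Finset.mem_univ a) h'
  apply RingOfIntegers.coe_injective
  rw [← sub_eq_zero]
  set P : K := ∏ b, bil (toM A) (toV w b) (toV w b) with hP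
  have h2 : ∀ a, (∏ b ∈ Finset.univ.erase a, bil (toM A) (toV w b) (toV w b)) *
      bil (toM A) (toV w a) (toV w a) = P := fun a =>
    Finset.prod_erase_mul _ _ (Finset.mem_univ a)
  have h3 : ((∑ a, (∏ b ∈ Finset.univ.erase a, bil A (w b) (w b)) * bil A (w a) x ^ 2 : 𝓞 K) : K) -
      ((∑ a, (∏ b ∈ Finset.univ.erase a, bil A (w b) (w b)) * bil A (w a) x' ^ 2 : 𝓞 K) : K) =
      ∑ a, P * (γ a * (bil (toM A) (toV w a) (fun i => (x i : K)) +
        bil (toM A) (toV w a) (fun i => (x' i : K)))) := by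
    push_cast
    rw [← Finset.sum_sub_distrib]
    refine Finset.sum_congr rfl fun a _ => ?_
    simp only [coe_bil]
    rw [← h2 a]
    have := h1 a
    linear_combination (∏ b ∈ Finset.univ.erase a, bil (toM A) (toV w b) (toV w b)) *
      (bil (toM A) (toV w a) (fun i => (x i : K)) + bil (toM A) (toV w a) (fun i => (x' i : K))) * this
  refine h3.trans ?_
  rw [← Finset.mul_sum]
  have h4 : ∑ a, γ a * (bil (toM A) (toV w a) (fun i => (x i : K)) +
      bil (toM A) (toV w a) (fun i => (x' i : K))) =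
      bil (toM A) ((fun i => (x i : K)) - fun i => (x' i : K)) (fun i => (x i : K)) +
      bil (toM A) ((fun i => (x i : K)) - fun i => (x' i : K)) (fun i => (x' i : K)) := by
    have e1 : ((fun i => (x i : K)) - fun i => (x' i : K)) = ∑ b, γ b • toV w b := by
      rw [hγ]; rfl
    rw [e1, bil_sum_left, bil_sum_left, ← Finset.sum_add_distrib]
    refine Finset.sum_congr rfl fun a _ => ?_
    rw [bil_smul_left, bil_smul_left]; ring
  rw [h4, bil_sub_left, bil_sub_left, bil_symm hAK (fun i => (x' i : K)) (fun i => (x i : K)),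
    ← coe_bil, ← coe_bil, ← coe_bil, hx, hx']
  have h0 : ((0 : 𝓞 K) : K) = 0 := map_zero (algebraMap (𝓞 K) K)
  rw [h0]
  ring

omit [NumberField K] in
lemma fibre_inj {A : Fin m → Fin m → 𝓞 K} (hA : ∀ i j, A i j = A j i) {w : Fin r → Fin m → 𝓞 K}
    (h : Orth A w) (x x' : Fin m → 𝓞 K)
    (hd : (fun i => (x i : K) - (x' i : K)) ∈ Submodule.span K (Set.range (toV w)))
    (ht : ∀ a, bil A (w a) x = bil A (w a) x') : x = x' := by
  obtain ⟨γ, hγ⟩ := (Submodule.mem_span_range_iff_exists_fun K).1 hd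
  have hAK : ∀ i j, toM A i j = toM A j i := fun i j => by
    show (A i j : K) = A j i
    rw [hA]
  have h1 : ∀ a, γ a = 0 := by
    intro a
    have h2 : bil (toM A) ((fun i => (x i : K)) - fun i => (x' i : K)) (toV w a) = 0 := by
      rw [bil_sub_left, bil_symm hAK (fun i => (x i : K)), bil_symm hAK (fun i => (x' i : K)),
        ← coe_bil, ← coe_bil, ht a, sub_self]
    have e1 : ((fun i => (x i : K)) - fun i => (x' i : K)) = ∑ b, γ b • toV w b := by
      rw [hγ]; rfl
    rw [e1, bil_sum_left, Finset.sum_eq_single a] at h2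
    · rw [bil_smul_left] at h2
      rcases mul_eq_zero.1 h2 with h3 | h3
      · exact h3
      · exact absurd h3 (h.neK a)
    · intro b _ hba
      rw [bil_smul_left, h.orthK hba, mul_zero]
    · intro h'; exact absurd (Finset.mem_univ a) h'
  funext i
  have h2 := congrFun hγ i
  rw [Finset.sum_apply] at h2
  have h3 : ∑ a, (γ a • toV w a) i = 0 := Finset.sum_eq_zero fun a _ => by rw [h1 a, zero_smul]; rfl
  rw [h3] at h2
  exact RingOfIntegers.coe_injective (sub_eq_zero.1 h2.symm)

/-- the quadratic form with the matrix `A` has rank at least `r` on the linear space `W` -/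
def RankGe (A : Fin m → Fin m → 𝓞 K) (W : Set (Fin m → K)) (r : ℕ) : Prop :=
  ∃ w : Fin r → Fin m → K, (∀ a, w a ∈ W) ∧ (∀ a, ∑ i, ∑ j, (A i j : K) * w a i * w a j ≠ 0) ∧
    ∀ a b, a ≠ b → ∑ i, ∑ j, (A i j : K) * w a i * w b j = 0

lemma exists_int_multiple (w : Fin m → K) : ∃ D : ℤ, D ≠ 0 ∧ ∃ w' : Fin m → 𝓞 K,
    (fun i => (w' i : K)) = (D : K) • w := by
  obtain ⟨D, hD, hint⟩ := Pool.Agent.R366.UC.clear (Finset.univ.image w)
  exact ⟨D, hD, fun i => ⟨_, hint _ (Finset.mem_image_of_mem w (Finset.mem_univ i))⟩, rfl⟩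

/-- the integral system -/
lemma exists_system {A : Fin m → Fin m → 𝓞 K} (hA : ∀ i j, A i j = A j i)
    (h5 : RankGe A Set.univ 5) {W : Set (Fin m → K)} (h2 : RankGe A W 2)
    (hW : ∀ (c : K), ∀ x ∈ W, c • x ∈ W) :
    ∃ w : Fin 5 → Fin m → 𝓞 K, Orth A w ∧ toV w 0 ∈ W ∧ toV w 1 ∈ W := by
  obtain ⟨w', -, hw', hwo⟩ := h5
  obtain ⟨u, huW, hu, huo⟩ := h2
  have hAK : ∀ i j, toM A i j = toM A j i := fun i j => by
    show (A i j : K) = A j i
    rw [hA]
  have hBs : (Matrix.toBilin' (Matrix.of (toM A))).IsSymm := by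
    constructor
    intro x y
    show Matrix.toBilin' (Matrix.of (toM A)) x y = Matrix.toBilin' (Matrix.of (toM A)) y x
    rw [toBilin, toBilin, bil_symm hAK]
  obtain ⟨v, hv1, hv2, hv3⟩ := extend_orth (Matrix.toBilin' (Matrix.of (toM A))) hBs w'
    (fun a => by rw [toBilin]; exact hw' a) (fun a b hab => by rw [toBilin]; exact hwo a b hab)
    u (fun a => by rw [toBilin]; exact hu a) (by rw [toBilin]; exact huo 0 1 (by decide))
  simp only [toBilin] at hv1 hv2 hv3
  -- five vectors
  let z : Fin 5 → Fin m → K := ![u 0, u 1, v 0, v 1, v 2]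
  have hz1 : ∀ a, bil (toM A) (z a) (z a) ≠ 0 := by
    intro a
    fin_cases a
    · exact hu 0
    · exact hu 1
    · exact hv1 0
    · exact hv1 1
    · exact hv1 2
  have huv : ∀ a b, bil (toM A) (u b) (v a) = 0 := fun a b => by rw [bil_symm hAK]; exact hv3 a b
  have hz2 : ∀ a b, a ≠ b → bil (toM A) (z a) (z b) = 0 := by
    intro a b hab
    fin_cases a <;> fin_cases b
    · exact absurd rfl hab
    · exact huo 0 1 (by decide)
    · exact huv 0 0
    · exact huv 1 0
    · exact huv 2 0
    · exact huo 1 0 (by decide)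
    · exact absurd rfl hab
    · exact huv 0 1
    · exact huv 1 1
    · exact huv 2 1
    · exact hv3 0 0
    · exact hv3 0 1
    · exact absurd rfl hab
    · exact hv2 0 1 (by decide)
    · exact hv2 0 2 (by decide)
    · exact hv3 1 0
    · exact hv3 1 1
    · exact hv2 1 0 (by decide)
    · exact absurd rfl hab
    · exact hv2 1 2 (by decide)
    · exact hv3 2 0
    · exact hv3 2 1
    · exact hv2 2 0 (by decide)
    · exact hv2 2 1 (by decide)
    · exact absurd rfl hab
  choose D hD w hw using fun a => exists_int_multiple (z a)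
  have hwz : ∀ a, toV w a = (D a : K) • z a := hw
  have hbw : ∀ a b, bil (toM A) (toV w a) (toV w b) = D a * (D b * bil (toM A) (z a) (z b)) := by
    intro a b
    rw [hwz, hwz, bil_smul_left, bil_symm hAK, bil_smul_left, bil_symm hAK]
  refine ⟨w, ⟨fun a h0 => ?_, fun a b hab => ?_⟩, ?_, ?_⟩
  · have h1 := coe_bil A (w a) (w a)
    rw [h0] at h1
    have h2 : bil (toM A) (toV w a) (toV w a) = 0 := by
      rw [← coe_bil, h0]; exact map_zero (algebraMap (𝓞 K) K)
    rw [hbw] at h2
    have hDa : (D a : K) ≠ 0 := Int.cast_ne_zero.2 (hD a)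
    exact mul_ne_zero hDa (mul_ne_zero hDa (hz1 a)) h2
  · apply RingOfIntegers.coe_injective
    have h2 : bil (toM A) (toV w a) (toV w b) = 0 := by
      rw [hbw, hz2 a b hab, mul_zero, mul_zero]
    rw [← coe_bil] at h2
    exact h2.trans (map_zero (algebraMap (𝓞 K) K)).symm
  · rw [hwz]
    exact hW _ _ (huW 0)
  · rw [hwz]
    exact hW _ _ (huW 1)

end Pool.Agent.R366.QD
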