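import Mathlib
import Pool.Agent.R366.NF.Cases2

set_option autoImplicit false

/-!
# Representations by binary and ternary quadratic forms over number fields
-/

namespace Pool.Agent.R366.QD

open NumberField Pool.Agent.R366.NF Pool.Agent.TH910.Voj

open scoped Classical

variable {K : Type} [Field K] [NumberField K]

/-- a number field with a square root -/
lemma exists_root (γ : 𝓞 K) : ∃ (E : Type) (_ : Field E) (_ : NumberField E) (_ : Algebra K E)
    (s : 𝓞 E), (s : E) ^ 2 = algebraMap K E (γ : K) := by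
  set P : Polynomial K := Polynomial.X ^ 2 - Polynomial.C (γ : K) with hP
  have hmon : P.Monic := Polynomial.monic_X_pow_sub_C _ (by norm_num)
  have hdeg : P.degree ≠ 0 := by
    rw [hP, Polynomial.degree_X_pow_sub_C (by norm_num)]
    norm_num
  let E := P.SplittingField
  have hE : NumberField E := NumberField.of_module_finite K E
  obtain ⟨s, hs⟩ := Polynomial.Splits.exists_eval_eq_zero (Polynomial.SplittingField.splits P)
    (by rwa [Polynomial.degree_map])
  have hs2 : s ^ 2 = algebraMap K E (γ : K) := by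
    rw [Polynomial.eval_map] at hs
    simpa [hP, sub_eq_zero] using hs
  have hint : IsIntegral ℤ s := by
    have h1 : IsIntegral ℤ (s ^ 2) := by
      rw [hs2]
      exact (RingOfIntegers.isIntegral_coe γ).map (algebraMap K E).toIntAlgHom
    exact IsIntegral.of_pow (by norm_num) h1
  exact ⟨E, inferInstance, hE, inferInstance, ⟨s, hint⟩, hs2⟩

/-- the binary case -/
lemma binary (α β : 𝓞 K) (hα : α ≠ 0) (hβ : β ≠ 0) {δ : ℝ} (hδ : 0 < δ) :
    ∃ C : ℝ, 0 < C ∧ ∀ B : ℕ, 1 ≤ B → ∀ κ : 𝓞 K, κ ≠ 0 → ∀ T : Finset (𝓞 K × 𝓞 K),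
      (∀ z ∈ T, z.1 ∈ obox K B ∧ z.2 ∈ obox K B ∧ α * z.1 ^ 2 + β * z.2 ^ 2 = κ) →
        (T.card : ℝ) ≤ C * (B : ℝ) ^ δ := by
  set d : ℕ := Module.finrank ℚ K with hd
  have hd1 : 1 ≤ d := Module.finrank_pos (R := ℚ) (M := K)
  have hd0 : (0 : ℝ) < d := by exact_mod_cast hd1
  obtain ⟨E, _, _, _, s, hs⟩ := exists_root (-(α * β))
  obtain ⟨A, hA, hsize⟩ := exists_size K
  obtain ⟨C₁, hC₁, hdiv⟩ := few_divisors (E := E) (δ := δ / (4 * d)) (by positivity)
  -- sizes
  obtain ⟨c, hc1, hc⟩ : ∃ c : ℝ, 1 ≤ c ∧ (∀ w : InfinitePlace K, w (α : K) ≤ c ∧ w (β : K) ≤ c) ∧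
      ∀ w : InfinitePlace E, w (algebraMap K E (α : K)) ≤ c ∧ w (s : E) ≤ c := by
    refine ⟨1 + ∑ w : InfinitePlace K, (w (α : K) + w (β : K)) +
      ∑ w : InfinitePlace E, (w (algebraMap K E (α : K)) + w (s : E)), ?_, fun w => ?_, fun w => ?_⟩
    · have h1 : 0 ≤ ∑ w : InfinitePlace K, (w (α : K) + w (β : K)) :=
        Finset.sum_nonneg fun w _ => add_nonneg (apply_nonneg _ _) (apply_nonneg _ _)
      have h2 : 0 ≤ ∑ w : InfinitePlace E, (w (algebraMap K E (α : K)) + w (s : E)) :=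
        Finset.sum_nonneg fun w _ => add_nonneg (apply_nonneg _ _) (apply_nonneg _ _)
      linarith
    · have h1 : w (α : K) + w (β : K) ≤ ∑ w : InfinitePlace K, (w (α : K) + w (β : K)) :=
        Finset.single_le_sum (f := fun w : InfinitePlace K => w (α : K) + w (β : K))
          (fun w _ => add_nonneg (apply_nonneg _ _) (apply_nonneg _ _)) (Finset.mem_univ w)
      have h2 : 0 ≤ ∑ w : InfinitePlace E, (w (algebraMap K E (α : K)) + w (s : E)) :=
        Finset.sum_nonneg fun w _ => add_nonneg (apply_nonneg _ _) (apply_nonneg _ _)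
      have h3 : 0 ≤ w (α : K) := apply_nonneg _ _
      have h4 : 0 ≤ w (β : K) := apply_nonneg _ _
      constructor <;> linarith
    · have h1 : w (algebraMap K E (α : K)) + w (s : E) ≤
          ∑ w : InfinitePlace E, (w (algebraMap K E (α : K)) + w (s : E)) :=
        Finset.single_le_sum (f := fun w : InfinitePlace E => w (algebraMap K E (α : K)) + w (s : E))
          (fun w _ => add_nonneg (apply_nonneg _ _) (apply_nonneg _ _)) (Finset.mem_univ w)
      have h2 : 0 ≤ ∑ w : InfinitePlace K, (w (α : K) + w (β : K)) :=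
        Finset.sum_nonneg fun w _ => add_nonneg (apply_nonneg _ _) (apply_nonneg _ _)
      have h3 : 0 ≤ w (algebraMap K E (α : K)) := apply_nonneg _ _
      have h4 : 0 ≤ w (s : E) := apply_nonneg _ _
      constructor <;> linarith
  set c₃ : ℝ := (2 * c ^ 2 * A ^ 2) ^ d with hc₃
  have hc₃0 : 1 ≤ 2 * c ^ 2 * A ^ 2 := by nlinarith [one_le_pow₀ hc1 (n := 2), one_le_pow₀ hA (n := 2)]
  refine ⟨(C₁ * c₃ ^ (δ / (4 * d))) ^ 2, by positivity, fun B hB κ hκ T hT => ?_⟩
  have hB1 : (1 : ℝ) ≤ B := by exact_mod_cast hB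
  have hBpos : (0 : ℝ) < B := by linarith
  rcases T.eq_empty_or_nonempty with rfl | ⟨z₀, hz₀⟩
  · simp only [Finset.card_empty, Nat.cast_zero]; positivity
  set X : ℝ := (2 * c ^ 2 * A ^ 2 * B ^ 2) ^ d with hX
  have hX0 : 1 ≤ 2 * c ^ 2 * A ^ 2 * (B : ℝ) ^ 2 := by
    have : (1 : ℝ) ≤ (B : ℝ) ^ 2 := one_le_pow₀ hB1
    nlinarith
  have hX1 : 1 ≤ X := one_le_pow₀ hX0
  have hXX : 2 * c ^ 2 * A ^ 2 * (B : ℝ) ^ 2 ≤ X := le_self_pow₀ hX0 (by omega)
  set ακ : 𝓞 K := α * κ with hακ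
  have hακ0 : ακ ≠ 0 := mul_ne_zero hα hκ
  set m : ℤ := Algebra.norm ℤ ακ with hm
  have hm0 : m ≠ 0 := Algebra.norm_ne_zero_iff.2 hακ0
  have hmX : |(m : ℝ)| ≤ X := by
    refine (norm_le ακ (X := 2 * c ^ 2 * A ^ 2 * B ^ 2) ?_).trans_eq rfl
    intro w
    obtain ⟨h1, h2, h3⟩ := hT z₀ hz₀
    have e1 : ((ακ : 𝓞 K) : K) = (α : K) * ((α : K) * (z₀.1 : K) ^ 2 + (β : K) * (z₀.2 : K) ^ 2) := by
      rw [hακ, ← h3]; push_cast; ring
    rw [e1, map_mul]
    have h4 : w ((α : K) * (z₀.1 : K) ^ 2 + (β : K) * (z₀.2 : K) ^ 2) ≤ c * (A * B) ^ 2 + c * (A * B) ^ 2 := by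
      refine (w.1.add_le _ _).trans (add_le_add ?_ ?_)
      · show w ((α : K) * (z₀.1 : K) ^ 2) ≤ _
        rw [map_mul, map_pow]
        exact mul_le_mul (hc.1 w).1 (pow_le_pow_left₀ (apply_nonneg _ _) (hsize B hB _ h1 w) 2)
          (by positivity) (by linarith)
      · show w ((β : K) * (z₀.2 : K) ^ 2) ≤ _
        rw [map_mul, map_pow]
        exact mul_le_mul (hc.1 w).2 (pow_le_pow_left₀ (apply_nonneg _ _) (hsize B hB _ h2 w) 2)
          (by positivity) (by linarith)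
    calc w (α : K) * w ((α : K) * (z₀.1 : K) ^ 2 + (β : K) * (z₀.2 : K) ^ 2)
        ≤ c * (c * (A * B) ^ 2 + c * (A * B) ^ 2) :=
          mul_le_mul (hc.1 w).1 h4 (apply_nonneg _ _) (by linarith)
      _ = 2 * c ^ 2 * A ^ 2 * B ^ 2 := by ring
  -- the factors
  set a' : 𝓞 E := algebraMap (𝓞 K) (𝓞 E) α with ha'
  have ha'K : (a' : E) = algebraMap K E (α : K) := rfl
  let p : 𝓞 K × 𝓞 K → 𝓞 E := fun z => a' * algebraMap (𝓞 K) (𝓞 E) z.1 + s * algebraMap (𝓞 K) (𝓞 E) z.2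
  let r : 𝓞 K × 𝓞 K → 𝓞 E := fun z => a' * algebraMap (𝓞 K) (𝓞 E) z.1 - s * algebraMap (𝓞 K) (𝓞 E) z.2
  have hs' : s ^ 2 = -(a' * algebraMap (𝓞 K) (𝓞 E) β) := by
    apply RingOfIntegers.coe_injective
    have h1 : ((s ^ 2 : 𝓞 E) : E) = (s : E) ^ 2 := by push_cast; rfl
    show ((s ^ 2 : 𝓞 E) : E) = ((-(a' * algebraMap (𝓞 K) (𝓞 E) β) : 𝓞 E) : E)
    rw [h1, hs]
    have h2 : ((-(a' * algebraMap (𝓞 K) (𝓞 E) β) : 𝓞 E) : E) = -((a' : E) * algebraMap K E (β : K)) := by
      push_cast; rfl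
    rw [h2, ha'K]
    have h3 : ((-(α * β) : 𝓞 K) : K) = -((α : K) * (β : K)) := by push_cast; rfl
    rw [h3, map_neg, map_mul]
  have hpr : ∀ z ∈ T, p z * r z = algebraMap (𝓞 K) (𝓞 E) ακ := by
    intro z hz
    obtain ⟨-, -, h3⟩ := hT z hz
    have e1 : p z * r z = a' ^ 2 * algebraMap (𝓞 K) (𝓞 E) z.1 ^ 2 -
        s ^ 2 * algebraMap (𝓞 K) (𝓞 E) z.2 ^ 2 := by
      simp only [p, r]; ring
    rw [e1, hs', hακ, ← h3, map_mul, map_add, map_mul, map_mul, map_pow, map_pow, ← ha']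
    ring
  have hdvd : algebraMap (𝓞 K) (𝓞 E) ακ ∣ (m : 𝓞 E) := by
    obtain ⟨γ, hγ⟩ := dvd_norm_int ακ
    refine ⟨algebraMap (𝓞 K) (𝓞 E) γ, ?_⟩
    rw [← map_mul, ← hγ]
    simp [hm]
  have hw : ∀ z ∈ T, ∀ w : InfinitePlace E, w (p z : E) ≤ X ∧ w (r z : E) ≤ X := by
    intro z hz w
    obtain ⟨h1, h2, -⟩ := hT z hz
    have f1 : w (algebraMap K E (z.1 : K)) ≤ A * B := by
      have := hsize B hB _ h1 (w.comap (algebraMap K E))
      rwa [InfinitePlace.comap_apply] at this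
    have f2 : w (algebraMap K E (z.2 : K)) ≤ A * B := by
      have := hsize B hB _ h2 (w.comap (algebraMap K E))
      rwa [InfinitePlace.comap_apply] at this
    obtain ⟨g1, g2⟩ := hc.2 w
    have hAB : 0 ≤ A * B := by positivity
    have k1 : w (algebraMap K E (α : K) * algebraMap K E (z.1 : K)) ≤ c * (A * B) := by
      rw [map_mul]
      exact mul_le_mul g1 f1 (apply_nonneg _ _) (by linarith)
    have k2 : w ((s : E) * algebraMap K E (z.2 : K)) ≤ c * (A * B) := by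
      rw [map_mul]
      exact mul_le_mul g2 f2 (apply_nonneg _ _) (by linarith)
    have k3 : c * (A * B) + c * (A * B) ≤ X := by
      refine le_trans ?_ hXX
      have h5 : A * B ≤ A ^ 2 * B ^ 2 := by
        have h6 : 1 ≤ A * B := one_le_mul_of_one_le_of_one_le hA hB1
        nlinarith
      have h7 : c ≤ c ^ 2 := by nlinarith
      calc c * (A * B) + c * (A * B) = 2 * (c * (A * B)) := by ring
        _ ≤ 2 * (c ^ 2 * (A ^ 2 * B ^ 2)) := by
          refine mul_le_mul_of_nonneg_left ?_ (by norm_num)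
          exact mul_le_mul h7 h5 hAB (by positivity)
        _ = _ := by ring
    have e1 : ((p z : 𝓞 E) : E) = algebraMap K E (α : K) * algebraMap K E (z.1 : K) +
        (s : E) * algebraMap K E (z.2 : K) := by
      simp only [p]; push_cast; rfl
    have e2 : ((r z : 𝓞 E) : E) = algebraMap K E (α : K) * algebraMap K E (z.1 : K) -
        (s : E) * algebraMap K E (z.2 : K) := by
      simp only [r]; push_cast; rfl
    constructor
    · rw [e1]
      exact ((w.1.add_le _ _).trans (add_le_add k1 k2)).trans k3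
    · rw [e2, sub_eq_add_neg]
      refine ((w.1.add_le _ _).trans (add_le_add k1 ?_)).trans k3
      have : w.1 (-((s : E) * algebraMap K E (z.2 : K))) = w ((s : E) * algebraMap K E (z.2 : K)) :=
        w.1.map_neg _
      rw [this]
      exact k2
  have hcp := hdiv X hX1 m hm0 hmX (T.image p) (by
    intro β' hβ'
    obtain ⟨z, hz, rfl⟩ := Finset.mem_image.1 hβ'
    exact ⟨(Dvd.intro _ (hpr z hz)).trans hdvd, fun w => (hw z hz w).1⟩)
  have hcr := hdiv X hX1 m hm0 hmX (T.image r) (by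
    intro β' hβ'
    obtain ⟨z, hz, rfl⟩ := Finset.mem_image.1 hβ'
    exact ⟨(Dvd.intro_left _ (hpr z hz)).trans hdvd, fun w => (hw z hz w).2⟩)
  have ha0 : a' ≠ 0 := by
    rw [ha']
    intro h
    exact hα ((FaithfulSMul.algebraMap_injective (𝓞 K) (𝓞 E)) (h.trans (map_zero _).symm))
  have hs0 : s ≠ 0 := by
    intro h
    rw [h] at hs'
    have h1 : a' * algebraMap (𝓞 K) (𝓞 E) β = 0 := by
      have : (0 : 𝓞 E) ^ 2 = 0 := by ring
      rw [this] at hs'
      exact neg_eq_zero.1 hs'.symm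
    rcases mul_eq_zero.1 h1 with h2 | h2
    · exact ha0 h2
    · exact hβ ((FaithfulSMul.algebraMap_injective (𝓞 K) (𝓞 E)) (h2.trans (map_zero _).symm))
  have hcard : T.card ≤ (T.image p ×ˢ T.image r).card := by
    refine Finset.card_le_card_of_injOn (fun z => (p z, r z)) ?_ ?_
    · intro z hz
      exact Finset.mem_coe.2 (Finset.mem_product.2 ⟨Finset.mem_image_of_mem _ hz,
        Finset.mem_image_of_mem _ hz⟩)
    · intro z _ z' _ h
      have h1 : p z = p z' := congrArg Prod.fst h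
      have h2 : r z = r z' := congrArg Prod.snd h
      simp only [p, r] at h1 h2
      have two0 : (2 : 𝓞 E) ≠ 0 := by norm_num
      have h3 : (2 * a') * algebraMap (𝓞 K) (𝓞 E) z.1 = (2 * a') * algebraMap (𝓞 K) (𝓞 E) z'.1 := by
        linear_combination h1 + h2
      have h4 : (2 * s) * algebraMap (𝓞 K) (𝓞 E) z.2 = (2 * s) * algebraMap (𝓞 K) (𝓞 E) z'.2 := by
        linear_combination h1 - h2
      have h5 := mul_left_cancel₀ (mul_ne_zero two0 ha0) h3
      have h6 := mul_left_cancel₀ (mul_ne_zero two0 hs0) h4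
      exact Prod.ext (FaithfulSMul.algebraMap_injective (𝓞 K) (𝓞 E) h5)
        (FaithfulSMul.algebraMap_injective (𝓞 K) (𝓞 E) h6)
  rw [Finset.card_product] at hcard
  have h10 : X ^ (δ / (4 * d)) = c₃ ^ (δ / (4 * d)) * (B : ℝ) ^ (δ / 2) := by
    have h11 : X = c₃ * (B : ℝ) ^ (2 * d) := by
      rw [hX, hc₃, pow_mul, ← mul_pow]
    rw [h11, Real.mul_rpow (by positivity) (by positivity)]
    congr 1
    rw [← Real.rpow_natCast, ← Real.rpow_mul hBpos.le]
    congr 1
    push_cast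
    field_simp
    ring
  calc (T.card : ℝ) ≤ ((T.image p).card : ℝ) * ((T.image r).card : ℝ) := by exact_mod_cast hcard
    _ ≤ (C₁ * X ^ (δ / (4 * d))) * (C₁ * X ^ (δ / (4 * d))) :=
        mul_le_mul hcp hcr (Nat.cast_nonneg _) (by positivity)
    _ = (C₁ * c₃ ^ (δ / (4 * d))) ^ 2 * ((B : ℝ) ^ (δ / 2) * (B : ℝ) ^ (δ / 2)) := by rw [h10]; ring
    _ = _ := by
        rw [← Real.rpow_add hBpos]
        congr 2
        ring

/-- at most two square roots -/
lemma card_sq_le {R : Type} [CommRing R] [IsDomain R] (T : Finset R)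
    (h : ∀ x ∈ T, ∀ y ∈ T, x ^ 2 = y ^ 2) : T.card ≤ 2 := by
  classical
  rcases T.eq_empty_or_nonempty with rfl | ⟨x, hx⟩
  · simp
  · have h1 : T ⊆ {x, -x} := by
      intro y hy
      have h2 : (y - x) * (y + x) = 0 := by
        have := h y hy x hx
        linear_combination this
      rcases mul_eq_zero.1 h2 with h3 | h3
      · rw [Finset.mem_insert]; exact Or.inl (sub_eq_zero.1 h3)
      · rw [Finset.mem_insert, Finset.mem_singleton]; exact Or.inr (eq_neg_of_add_eq_zero_left h3)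
    exact (Finset.card_le_card h1).trans Finset.card_le_two

/-- the isotropic case -/
lemma binary_zero (α β : 𝓞 K) (hβ : β ≠ 0) (B : ℕ) (κ : 𝓞 K)
    (T : Finset (𝓞 K × 𝓞 K)) (hT : ∀ z ∈ T, z.1 ∈ obox K B ∧ α * z.1 ^ 2 + β * z.2 ^ 2 = κ) :
    T.card ≤ 2 * (2 * B + 1) ^ Module.finrank ℚ K := by
  rw [← card_obox (K := K) B]
  refine le_trans (Finset.card_le_mul_card_image (f := Prod.fst) T 2 ?_) ?_
  · intro s _
    have h1 : (T.filter fun z => z.1 = s).card = ((T.filter fun z => z.1 = s).image Prod.snd).card := by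
      rw [Finset.card_image_of_injOn]
      intro z hz z' hz' h
      rw [Finset.mem_coe, Finset.mem_filter] at hz hz'
      exact Prod.ext (hz.2.trans hz'.2.symm) h
    rw [h1]
    apply card_sq_le
    intro x hx y hy
    rw [Finset.mem_image] at hx hy
    obtain ⟨z, hz, rfl⟩ := hx
    obtain ⟨z', hz', rfl⟩ := hy
    rw [Finset.mem_filter] at hz hz'
    have h2 := (hT z hz.1).2
    have h3 := (hT z' hz'.1).2
    rw [hz.2] at h2
    rw [hz'.2] at h3
    have h4 : β * z.2 ^ 2 = β * z'.2 ^ 2 := by linear_combination h2 - h3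
    exact mul_left_cancel₀ hβ h4
  · refine Nat.mul_le_mul_left 2 (Finset.card_le_card ?_)
    intro s hs
    obtain ⟨z, hz, rfl⟩ := Finset.mem_image.1 hs
    exact (hT z hz).1

/-- the ternary case -/
lemma ternary (α β γ : 𝓞 K) (hα : α ≠ 0) (hβ : β ≠ 0) (hγ : γ ≠ 0) {δ : ℝ} (hδ : 0 < δ) :
    ∃ C : ℝ, 0 < C ∧ ∀ B : ℕ, 1 ≤ B → ∀ κ : 𝓞 K, ∀ T : Finset (𝓞 K × 𝓞 K × 𝓞 K),
      (∀ z ∈ T, z.1 ∈ obox K B ∧ z.2.1 ∈ obox K B ∧ z.2.2 ∈ obox K B ∧
        α * z.1 ^ 2 + β * z.2.1 ^ 2 + γ * z.2.2 ^ 2 = κ) →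
        (T.card : ℝ) ≤ C * (B : ℝ) ^ ((Module.finrank ℚ K : ℝ) + δ) := by
  set d : ℕ := Module.finrank ℚ K with hd
  obtain ⟨C₁, hC₁, h⟩ := binary α β hα hβ hδ
  refine ⟨3 ^ d * (C₁ + 1) + 4 * 3 ^ d, by positivity, fun B hB κ T hT => ?_⟩
  have hB1 : (1 : ℝ) ≤ B := by exact_mod_cast hB
  have hBpos : (0 : ℝ) < B := by linarith
  have hbox : ((2 * B + 1 : ℕ) : ℝ) ^ d ≤ 3 ^ d * (B : ℝ) ^ (d : ℝ) := by
    rw [Real.rpow_natCast, ← mul_pow]
    refine pow_le_pow_left₀ (by positivity) ?_ _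
    push_cast
    linarith
  have hBd : (B : ℝ) ^ (d : ℝ) ≤ (B : ℝ) ^ ((d : ℝ) + δ) :=
    Real.rpow_le_rpow_of_exponent_le hB1 (by linarith)
  set T₁ := T.filter fun z => κ - γ * z.2.2 ^ 2 ≠ 0 with hT₁
  set T₂ := T.filter fun z => ¬ (κ - γ * z.2.2 ^ 2 ≠ 0) with hT₂
  have hsplit : T.card = T₁.card + T₂.card := (Finset.card_filter_add_card_filter_not _).symm
  -- the main part
  set D : ℕ := ⌊C₁ * (B : ℝ) ^ δ⌋₊ with hD
  have h1 : T₁.card ≤ D * (2 * B + 1) ^ d := by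
    rw [hd, ← card_obox (K := K) B]
    refine le_trans (Finset.card_le_mul_card_image (f := fun z => z.2.2) T₁ D ?_) ?_
    · intro u _
      have h1 : (T₁.filter fun z => z.2.2 = u).card =
          ((T₁.filter fun z => z.2.2 = u).image fun z => (z.1, z.2.1)).card := by
        rw [Finset.card_image_of_injOn]
        intro z hz z' hz' h
        rw [Finset.mem_coe, Finset.mem_filter] at hz hz'
        simp only [Prod.mk.injEq] at h
        exact Prod.ext h.1 (Prod.ext h.2 (hz.2.trans hz'.2.symm))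
      rw [h1]
      by_cases hu : κ - γ * u ^ 2 = 0
      · have : (T₁.filter fun z => z.2.2 = u) = ∅ := by
          rw [Finset.filter_eq_empty_iff]
          intro z hz h2
          rw [hT₁, Finset.mem_filter] at hz
          apply hz.2
          rw [h2, hu]
        rw [this]
        simp
      · refine Nat.le_floor ?_
        refine h B hB (κ - γ * u ^ 2) hu _ ?_
        intro y hy
        rw [Finset.mem_image] at hy
        obtain ⟨z, hz, rfl⟩ := hy
        rw [Finset.mem_filter, hT₁, Finset.mem_filter] at hz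
        obtain ⟨g1, g2, g3, g4⟩ := hT z hz.1.1
        refine ⟨g1, g2, ?_⟩
        rw [← g4, ← hz.2]
        ring
    · refine Nat.mul_le_mul_left D (Finset.card_le_card ?_)
      intro s hs
      obtain ⟨z, hz, rfl⟩ := Finset.mem_image.1 hs
      rw [hT₁, Finset.mem_filter] at hz
      exact (hT z hz.1).2.2.1
  have h2 : T₂.card ≤ 4 * (2 * B + 1) ^ d := by
    rw [hd, ← card_obox (K := K) B]
    refine le_trans (Finset.card_le_mul_card_image (f := fun z => z.1) T₂ 4 ?_) ?_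
    · intro u _
      have h1 : (T₂.filter fun z => z.1 = u).card ≤
          (((T₂.filter fun z => z.1 = u).image fun z => z.2.1) ×ˢ
            ((T₂.filter fun z => z.1 = u).image fun z => z.2.2)).card := by
        refine Finset.card_le_card_of_injOn (fun z => z.2) ?_ ?_
        · intro z hz
          exact Finset.mem_coe.2 (Finset.mem_product.2
            ⟨Finset.mem_image_of_mem (fun z : 𝓞 K × 𝓞 K × 𝓞 K => z.2.1) hz,
              Finset.mem_image_of_mem (fun z : 𝓞 K × 𝓞 K × 𝓞 K => z.2.2) hz⟩)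
        · intro z hz z' hz' h
          rw [Finset.mem_coe, Finset.mem_filter] at hz hz'
          exact Prod.ext (hz.2.trans hz'.2.symm) h
      rw [Finset.card_product] at h1
      have hγ' : ∀ z ∈ T₂, κ = γ * z.2.2 ^ 2 := by
        intro z hz
        rw [hT₂, Finset.mem_filter, not_not] at hz
        exact sub_eq_zero.1 hz.2
      have h3 : ((T₂.filter fun z => z.1 = u).image fun z => z.2.1).card ≤ 2 := by
        apply card_sq_le
        intro x hx y hy
        rw [Finset.mem_image] at hx hy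
        obtain ⟨z, hz, rfl⟩ := hx
        obtain ⟨z', hz', rfl⟩ := hy
        rw [Finset.mem_filter] at hz hz'
        have f1 := (hT z (Finset.mem_of_mem_filter _ hz.1)).2.2.2
        have f2 := (hT z' (Finset.mem_of_mem_filter _ hz'.1)).2.2.2
        have f3 := hγ' z hz.1
        have f4 := hγ' z' hz'.1
        rw [hz.2] at f1
        rw [hz'.2] at f2
        have f5 : β * z.2.1 ^ 2 = β * z'.2.1 ^ 2 := by linear_combination f1 - f2 + f3 - f4
        exact mul_left_cancel₀ hβ f5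
      have h4 : ((T₂.filter fun z => z.1 = u).image fun z => z.2.2).card ≤ 2 := by
        apply card_sq_le
        intro x hx y hy
        rw [Finset.mem_image] at hx hy
        obtain ⟨z, hz, rfl⟩ := hx
        obtain ⟨z', hz', rfl⟩ := hy
        rw [Finset.mem_filter] at hz hz'
        have f3 := hγ' z hz.1
        have f4 := hγ' z' hz'.1
        exact mul_left_cancel₀ hγ (f3.symm.trans f4)
      nlinarith
    · refine Nat.mul_le_mul_left 4 (Finset.card_le_card ?_)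
      intro s hs
      obtain ⟨z, hz, rfl⟩ := Finset.mem_image.1 hs
      rw [hT₂, Finset.mem_filter] at hz
      exact (hT z hz.1).1
  have h3 : (T.card : ℝ) ≤ D * ((2 * B + 1 : ℕ) : ℝ) ^ d + 4 * ((2 * B + 1 : ℕ) : ℝ) ^ d := by
    rw [hsplit]
    push_cast
    have e1 : (T₁.card : ℝ) ≤ D * ((2 * B + 1 : ℕ) : ℝ) ^ d := by exact_mod_cast h1
    have e2 : (T₂.card : ℝ) ≤ 4 * ((2 * B + 1 : ℕ) : ℝ) ^ d := by exact_mod_cast h2
    push_cast at e1 e2
    linarith
  have h4 : (D : ℝ) ≤ C₁ * (B : ℝ) ^ δ := Nat.floor_le (by positivity)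
  have h5 : (D : ℝ) * ((2 * B + 1 : ℕ) : ℝ) ^ d ≤ (C₁ * (B : ℝ) ^ δ) * (3 ^ d * (B : ℝ) ^ (d : ℝ)) :=
    mul_le_mul h4 hbox (by positivity) (by positivity)
  have h6 : (C₁ * (B : ℝ) ^ δ) * (3 ^ d * (B : ℝ) ^ (d : ℝ)) =
      3 ^ d * C₁ * (B : ℝ) ^ ((d : ℝ) + δ) := by
    rw [Real.rpow_add hBpos]; ring
  have h7 : 4 * ((2 * B + 1 : ℕ) : ℝ) ^ d ≤ 4 * 3 ^ d * (B : ℝ) ^ ((d : ℝ) + δ) := by
    have : ((2 * B + 1 : ℕ) : ℝ) ^ d ≤ 3 ^ d * (B : ℝ) ^ ((d : ℝ) + δ) :=
      hbox.trans (mul_le_mul_of_nonneg_left hBd (by positivity))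
    linarith
  have h8 : (0 : ℝ) ≤ 3 ^ d * (B : ℝ) ^ ((d : ℝ) + δ) := by positivity
  calc (T.card : ℝ) ≤ 3 ^ d * C₁ * (B : ℝ) ^ ((d : ℝ) + δ) + 4 * 3 ^ d * (B : ℝ) ^ ((d : ℝ) + δ) := by
        linarith
    _ ≤ _ := by linarith

end Pool.Agent.R366.QD
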