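import Mathlib
import Pool.Agent.R366.QD.Bil
import Pool.Agent.R366.QD.Count
import Pool.Agent.R366.NF.Rep

set_option autoImplicit false

/-!
# Counting integral points of quadrics along the fibres of projections
-/

namespace Pool.Agent.R366.QD

open NumberField MvPolynomial Pool.Agent.R366.NF Pool.Agent.TH910.Voj

open scoped Classical

variable {K : Type} [Field K] [NumberField K] {n n' N N' : ℕ}

lemma mem_obox_of_repr {B : ℕ} {a : 𝓞 K} (h : ∀ l, |(RingOfIntegers.basis K).repr a l| ≤ (B : ℤ)) :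
    a ∈ obox K B := by
  unfold obox
  rw [Finset.mem_image]
  refine ⟨fun l => (RingOfIntegers.basis K).repr a l, ?_, ?_⟩
  · rw [Fintype.mem_piFinset]
    intro l
    rw [Finset.mem_Icc, ← abs_le]
    exact h l
  · have h1 := (RingOfIntegers.basis K).sum_repr a
    conv_rhs => rw [← h1]
    exact Finset.sum_congr rfl fun l _ => by rw [zsmul_eq_mul]

lemma repr_of_mem_obox {B : ℕ} {a : 𝓞 K} (h : a ∈ obox K B) (l : Idx K) :
    |(RingOfIntegers.basis K).repr a l| ≤ (B : ℤ) := by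
  unfold obox at h
  rw [Finset.mem_image] at h
  obtain ⟨c, hc, rfl⟩ := h
  have h1 : (RingOfIntegers.basis K).repr (∑ l, ((c l : ℤ) : 𝓞 K) * RingOfIntegers.basis K l) l = c l := by
    have h2 : ∑ l, ((c l : ℤ) : 𝓞 K) * RingOfIntegers.basis K l =
        (RingOfIntegers.basis K).equivFun.symm c := by
      rw [Module.Basis.equivFun_symm_apply]
      exact Finset.sum_congr rfl fun l _ => (zsmul_eq_mul _ _).symm
    rw [h2]
    have h3 := (RingOfIntegers.basis K).equivFun.apply_symm_apply c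
    exact congrFun h3 l
  rw [h1]
  have h2 := (Fintype.mem_piFinset.1 hc) l
  rw [Finset.mem_Icc, ← abs_le] at h2
  exact h2

lemma obox_mono {B B' : ℕ} (h : B ≤ B') : obox K B ⊆ obox K B' := by
  intro a ha
  apply mem_obox_of_repr
  intro l
  exact (repr_of_mem_obox ha l).trans (by exact_mod_cast h)

/-- linear forms map boxes into boxes -/
lemma lin_box (L : Fin (n + 1) → 𝓞 K) : ∃ c₀ : ℕ, 1 ≤ c₀ ∧ ∀ B : ℕ, 1 ≤ B →
    ∀ x ∈ sbox (n + 1) (obox K B), ∑ i, L i * x i ∈ obox K (c₀ * B) := by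
  obtain ⟨A₁, hA₁, hsize⟩ := exists_size K
  obtain ⟨A₂, hA₂, hcoord⟩ := coord_le K
  set s : ℝ := ∑ i, ∑ w : InfinitePlace K, w (L i : K) with hs
  have hs0 : 0 ≤ s := Finset.sum_nonneg fun i _ => Finset.sum_nonneg fun w _ => apply_nonneg _ _
  refine ⟨⌈A₂ * (s * A₁)⌉₊ + 1, by omega, fun B hB x hx => ?_⟩
  have hB1 : (1 : ℝ) ≤ B := by exact_mod_cast hB
  apply mem_obox_of_repr
  intro l
  have h1 := hcoord (∑ i, L i * x i) (s * (A₁ * B)) (by positivity) (fun w =>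
    lin_size L w (fun i => hsize B hB _ (mem_sbox.1 hx i) w)) l
  have h2 : A₂ * (s * (A₁ * B)) = (A₂ * (s * A₁)) * B := by ring
  rw [h2] at h1
  have h3 : (A₂ * (s * A₁)) * (B : ℝ) ≤ ((⌈A₂ * (s * A₁)⌉₊ + 1 : ℕ) : ℝ) * B := by
    refine mul_le_mul_of_nonneg_right ?_ (by linarith)
    push_cast
    have := Nat.le_ceil (A₂ * (s * A₁))
    linarith
  have h4 := h1.trans h3
  have h5 : ((|(RingOfIntegers.basis K).repr (∑ i, L i * x i) l| : ℤ) : ℝ) ≤
      ((((⌈A₂ * (s * A₁)⌉₊ + 1) * B : ℕ) : ℤ) : ℝ) := by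
    push_cast at h4 ⊢
    exact h4
  exact_mod_cast h5

/-- finitely many linear forms -/
lemma lin_boxes {ι : Type} [Fintype ι] (L : ι → Fin (n + 1) → 𝓞 K) : ∃ c₀ : ℕ, 1 ≤ c₀ ∧
    ∀ B : ℕ, 1 ≤ B → ∀ x ∈ sbox (n + 1) (obox K B), ∀ a, ∑ i, L a i * x i ∈ obox K (c₀ * B) := by
  choose c hc1 hc using fun a => lin_box (L a)
  refine ⟨1 + ∑ a, c a, by omega, fun B hB x hx a => ?_⟩
  refine obox_mono ?_ (hc a B hB x hx)
  refine Nat.mul_le_mul_right B ?_
  have := Finset.single_le_sum (f := c) (fun a _ => Nat.zero_le _) (Finset.mem_univ a)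
  omega

omit [NumberField K] in
lemma bil_lin (A : Fin (n + 1) → Fin (n + 1) → 𝓞 K) (w x : Fin (n + 1) → 𝓞 K) :
    bil A w x = ∑ j, (∑ i, A i j * w i) * x j := by
  unfold bil
  rw [Finset.sum_comm]
  refine Finset.sum_congr rfl fun j _ => ?_
  rw [Finset.sum_mul]

omit [NumberField K] in
lemma Red.diff {m r r' : ℕ} {w : Fin r → Fin m → 𝓞 K} {v R : Fin r' → Fin m → 𝓞 K} {D : ℤ}
    [CharZero K] (h : Red (toV w) v R D) (x x' : Fin m → 𝓞 K)
    (hR : ∀ l, ∑ i, R l i * x i = ∑ i, R l i * x' i) :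
    (fun i => (x i : K) - (x' i : K)) ∈ Submodule.span K (Set.range (toV w)) := by
  have hDK : (D : K) ≠ 0 := Int.cast_ne_zero.2 h.hD
  have h1 := Submodule.sub_mem _ (h.mem fun i => (x i : K)) (h.mem fun i => (x' i : K))
  have hRK : ∀ l, ∑ i, (R l i : K) * (x i : K) = ∑ i, (R l i : K) * (x' i : K) := by
    intro l
    have := congrArg (fun z : 𝓞 K => (z : K)) (hR l)
    push_cast at this
    exact this
  have h2 : ((D : K) • (fun i => (x i : K)) - ∑ l, (∑ i, (R l i : K) * (x i : K)) •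
      (fun i => (v l i : K))) - ((D : K) • (fun i => (x' i : K)) -
      ∑ l, (∑ i, (R l i : K) * (x' i : K)) • (fun i => (v l i : K))) =
      (D : K) • (fun i => (x i : K) - (x' i : K)) := by
    have e1 : ∑ l, (∑ i, (R l i : K) * (x i : K)) • (fun i => (v l i : K)) =
        ∑ l, (∑ i, (R l i : K) * (x' i : K)) • (fun i => (v l i : K)) :=
      Finset.sum_congr rfl fun l _ => by rw [hRK l]
    rw [e1]
    funext i
    simp only [Pi.sub_apply, Pi.smul_apply, smul_eq_mul]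
    ring
  rw [h2] at h1
  have h3 := Submodule.smul_mem _ ((D : K)⁻¹) h1
  rwa [smul_smul, inv_mul_cancel₀ hDK, one_smul] at h3

lemma pow_box_le {B : ℕ} (hB : 1 ≤ B) (c₀ k : ℕ) (hc₀ : 1 ≤ c₀) :
    ((2 * (c₀ * B) + 1 : ℕ) : ℝ) ^ k ≤ (3 * c₀ : ℝ) ^ k * (B : ℝ) ^ (k : ℝ) := by
  rw [Real.rpow_natCast, ← mul_pow]
  refine pow_le_pow_left₀ (by positivity) ?_ _
  have h1 : (1 : ℝ) ≤ B := by exact_mod_cast hB
  have h2 : (1 : ℝ) ≤ c₀ := by exact_mod_cast hc₀
  push_cast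
  nlinarith

/-- the degenerate points -/
lemma fib5 {A : Fin (n + 1) → Fin (n + 1) → 𝓞 K} (hA : ∀ i j, A i j = A j i)
    {w : Fin 5 → Fin (n + 1) → 𝓞 K} (h : Orth A w) {δ : ℝ} (hδ : 0 < δ) :
    ∃ C : ℝ, 0 < C ∧ ∀ B : ℕ, 1 ≤ B → (((sbox (n + 1) (obox K B)).filter fun x =>
      bil A x x = 0 ∧ bil A (w 1) (w 1) * bil A (w 0) x ^ 2 +
        bil A (w 0) (w 0) * bil A (w 1) x ^ 2 = 0).card : ℝ) ≤
      C * (B : ℝ) ^ (((n : ℝ) - 2) * Module.finrank ℚ K + δ) := by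
  set d : ℕ := Module.finrank ℚ K with hd
  obtain ⟨r', v, R, D, hr, hD, h1, h2, h3⟩ := exists_red (toV w) h.indep
  have hred : Red (toV w) v R D := ⟨hD, h1, h2, h3⟩
  obtain ⟨c₁, hc₁, hb₁⟩ := lin_boxes R
  obtain ⟨c₂, hc₂, hb₂⟩ := lin_boxes (fun (a : Fin 5) (j : Fin (n + 1)) => ∑ i, A i j * w a i)
  have hb₂' : ∀ B : ℕ, 1 ≤ B → ∀ x ∈ sbox (n + 1) (obox K B), ∀ a, bil A (w a) x ∈ obox K (c₂ * B) := by
    intro B hB x hx a
    rw [bil_lin]
    exact hb₂ B hB x hx a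
  set P : Fin 5 → 𝓞 K := fun a => ∏ b ∈ Finset.univ.erase a, bil A (w b) (w b) with hP
  have hP0 : ∀ a, P a ≠ 0 := fun a => Finset.prod_ne_zero_iff.2 fun b _ => h.ne b
  obtain ⟨C₃, hC₃, htern⟩ := ternary (P 2) (P 3) (P 4) (hP0 2) (hP0 3) (hP0 4) hδ
  refine ⟨(2 * (3 * c₂ : ℝ) ^ d) * (C₃ * (c₂ : ℝ) ^ ((d : ℝ) + δ)) * (3 * c₁ : ℝ) ^ (d * r'),
    by positivity, fun B hB => ?_⟩
  have hB1 : (1 : ℝ) ≤ B := by exact_mod_cast hB
  have hBpos : (0 : ℝ) < B := by linarith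
  set T := (sbox (n + 1) (obox K B)).filter fun x =>
      bil A x x = 0 ∧ bil A (w 1) (w 1) * bil A (w 0) x ^ 2 +
        bil A (w 0) (w 0) * bil A (w 1) x ^ 2 = 0 with hT
  set D₁ : ℕ := 2 * (2 * (c₂ * B) + 1) ^ d with hD₁
  set D₂ : ℕ := ⌊C₃ * ((c₂ * B : ℕ) : ℝ) ^ ((d : ℝ) + δ)⌋₊ with hD₂
  have hmain : T.card ≤ (D₁ * D₂) * (sbox r' (obox K (c₁ * B))).card := by
    refine le_trans (Finset.card_le_mul_card_image (f := fun x l => ∑ i, R l i * x i) T (D₁ * D₂) ?_) ?_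
    · intro y _
      set F := T.filter fun x => (fun l => ∑ i, R l i * x i) = y with hF
      have hFm : ∀ x ∈ F, x ∈ sbox (n + 1) (obox K B) ∧ bil A x x = 0 ∧
          bil A (w 1) (w 1) * bil A (w 0) x ^ 2 + bil A (w 0) (w 0) * bil A (w 1) x ^ 2 = 0 ∧
          (fun l => ∑ i, R l i * x i) = y := by
        intro x hx
        rw [hF, Finset.mem_filter, hT, Finset.mem_filter] at hx
        exact ⟨hx.1.1, hx.1.2.1, hx.1.2.2, hx.2⟩
      have hdiff : ∀ x ∈ F, ∀ x' ∈ F, (fun i => (x i : K) - (x' i : K)) ∈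
          Submodule.span K (Set.range (toV w)) := by
        intro x hx x' hx'
        refine hred.diff x x' fun l => ?_
        have e1 := congrFun (hFm x hx).2.2.2 l
        have e2 := congrFun (hFm x' hx').2.2.2 l
        exact e1.trans e2.symm
      set G₁ := F.image fun x => (bil A (w 0) x, bil A (w 1) x) with hG₁
      set G₂ := F.image fun x => (bil A (w 2) x, bil A (w 3) x, bil A (w 4) x) with hG₂
      have hc1 : G₁.card ≤ D₁ := by
        refine binary_zero (bil A (w 1) (w 1)) (bil A (w 0) (w 0)) (h.ne 0) (c₂ * B) 0 G₁ ?_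
        intro z hz
        obtain ⟨x, hx, rfl⟩ := Finset.mem_image.1 hz
        obtain ⟨g1, g2, g3, g4⟩ := hFm x hx
        exact ⟨hb₂' B hB x g1 0, g3⟩
      have hc2 : G₂.card ≤ D₂ := by
        rcases F.eq_empty_or_nonempty with h0 | ⟨x₀, hx₀⟩
        · rw [hG₂, h0]; simp
        refine Nat.le_floor ?_
        refine htern (c₂ * B) (Nat.mul_pos hc₂ hB) (P 2 * bil A (w 2) x₀ ^ 2 + P 3 * bil A (w 3) x₀ ^ 2 +
          P 4 * bil A (w 4) x₀ ^ 2) G₂ ?_
        intro z hz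
        obtain ⟨x, hx, rfl⟩ := Finset.mem_image.1 hz
        obtain ⟨g1, g2, g3, g4⟩ := hFm x hx
        obtain ⟨k1, k2, k3, k4⟩ := hFm x₀ hx₀
        refine ⟨hb₂' B hB x g1 2, hb₂' B hB x g1 3, hb₂' B hB x g1 4, ?_⟩
        have e1 := fibre_const hA h x x₀ g2 k2 (hdiff x hx x₀ hx₀)
        have e2 : ∀ x, ∑ a, (∏ b ∈ Finset.univ.erase a, bil A (w b) (w b)) * bil A (w a) x ^ 2 =
            bil A (w 2) (w 2) * bil A (w 3) (w 3) * bil A (w 4) (w 4) *
              (bil A (w 1) (w 1) * bil A (w 0) x ^ 2 + bil A (w 0) (w 0) * bil A (w 1) x ^ 2) +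
            (P 2 * bil A (w 2) x ^ 2 + P 3 * bil A (w 3) x ^ 2 + P 4 * bil A (w 4) x ^ 2) := by
          intro x
          have f0 : (Finset.univ.erase (0 : Fin 5)) = {1, 2, 3, 4} := by decide
          have f1 : (Finset.univ.erase (1 : Fin 5)) = {0, 2, 3, 4} := by decide
          rw [Fin.sum_univ_five]
          simp only [hP]
          rw [f0, f1, Finset.prod_insert (by decide), Finset.prod_insert (by decide),
            Finset.prod_insert (by decide), Finset.prod_singleton, Finset.prod_insert (by decide),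
            Finset.prod_insert (by decide), Finset.prod_insert (by decide), Finset.prod_singleton]
          ring
        rw [e2, e2, g3, k3, mul_zero, zero_add, zero_add] at e1
        exact e1
      have hc3 : F.card ≤ (G₁ ×ˢ G₂).card := by
        refine Finset.card_le_card_of_injOn (fun x => ((bil A (w 0) x, bil A (w 1) x),
          (bil A (w 2) x, bil A (w 3) x, bil A (w 4) x))) ?_ ?_
        · intro x hx
          exact Finset.mem_coe.2 (Finset.mem_product.2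
            ⟨Finset.mem_image_of_mem (fun x => (bil A (w 0) x, bil A (w 1) x)) hx,
            Finset.mem_image_of_mem (fun x => (bil A (w 2) x, bil A (w 3) x, bil A (w 4) x)) hx⟩)
        · intro x hx x' hx' hxx
          simp only [Prod.mk.injEq] at hxx
          refine fibre_inj hA h x x' (hdiff x hx x' hx') ?_
          intro a
          fin_cases a
          · exact hxx.1.1
          · exact hxx.1.2
          · exact hxx.2.1
          · exact hxx.2.2.1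
          · exact hxx.2.2.2
      rw [Finset.card_product] at hc3
      exact hc3.trans (Nat.mul_le_mul hc1 hc2)
    · refine Nat.mul_le_mul_left _ (Finset.card_le_card ?_)
      intro y hy
      obtain ⟨x, hx, rfl⟩ := Finset.mem_image.1 hy
      rw [hT, Finset.mem_filter] at hx
      rw [mem_sbox]
      intro l
      exact hb₁ B hB x hx.1 l
  rw [card_sbox, card_obox, ← pow_mul, ← hd] at hmain
  have hm' : (T.card : ℝ) ≤ ((D₁ : ℝ) * D₂) * ((2 * (c₁ * B) + 1 : ℕ) : ℝ) ^ (d * r') := by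
    exact_mod_cast hmain
  have g1 : (D₁ : ℝ) ≤ 2 * (3 * c₂ : ℝ) ^ d * (B : ℝ) ^ (d : ℝ) := by
    have := pow_box_le hB c₂ d hc₂
    rw [hD₁]
    push_cast at this ⊢
    linarith
  have g2 : (D₂ : ℝ) ≤ C₃ * (c₂ : ℝ) ^ ((d : ℝ) + δ) * (B : ℝ) ^ ((d : ℝ) + δ) := by
    refine (Nat.floor_le (by positivity)).trans (le_of_eq ?_)
    push_cast
    rw [Real.mul_rpow (by positivity) (by positivity), mul_assoc]
  have g3 := pow_box_le hB c₁ (d * r') hc₁
  calc (T.card : ℝ) ≤ ((D₁ : ℝ) * D₂) * ((2 * (c₁ * B) + 1 : ℕ) : ℝ) ^ (d * r') := hm'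
    _ ≤ ((2 * (3 * c₂ : ℝ) ^ d * (B : ℝ) ^ (d : ℝ)) *
        (C₃ * (c₂ : ℝ) ^ ((d : ℝ) + δ) * (B : ℝ) ^ ((d : ℝ) + δ))) *
        ((3 * c₁ : ℝ) ^ (d * r') * (B : ℝ) ^ ((d * r' : ℕ) : ℝ)) :=
        mul_le_mul (mul_le_mul g1 g2 (by positivity) (by positivity)) g3 (by positivity) (by positivity)
    _ = ((2 * (3 * c₂ : ℝ) ^ d) * (C₃ * (c₂ : ℝ) ^ ((d : ℝ) + δ)) * (3 * c₁ : ℝ) ^ (d * r')) *
        ((B : ℝ) ^ (d : ℝ) * (B : ℝ) ^ ((d : ℝ) + δ) * (B : ℝ) ^ ((d * r' : ℕ) : ℝ)) := by ring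
    _ = _ := by
        rw [← Real.rpow_add hBpos, ← Real.rpow_add hBpos]
        congr 2
        have hr' : (5 : ℝ) + r' = n + 1 := by exact_mod_cast hr
        push_cast
        linear_combination (d : ℝ) * hr'

/-- the other points, along the fibres -/
lemma fib2 {A : Fin (n + 1) → Fin (n + 1) → 𝓞 K} (hA : ∀ i j, A i j = A j i)
    {w : Fin 2 → Fin (n + 1) → 𝓞 K} (h : Orth A w) {r' : ℕ} {v R : Fin r' → Fin (n + 1) → 𝓞 K}
    {D : ℤ} (hred : Red (toV w) v R D) {δ : ℝ} (hδ : 0 < δ) :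
    ∃ C : ℝ, 0 < C ∧ ∀ B : ℕ, 1 ≤ B → ∀ y : Fin r' → 𝓞 K,
      ((((sbox (n + 1) (obox K B)).filter fun x => bil A x x = 0 ∧
        ¬ (bil A (w 1) (w 1) * bil A (w 0) x ^ 2 + bil A (w 0) (w 0) * bil A (w 1) x ^ 2 = 0)).filter
        fun x => (fun l => ∑ i, R l i * x i) = y).card : ℝ) ≤ C * (B : ℝ) ^ δ := by
  obtain ⟨c₂, hc₂, hb₂⟩ := lin_boxes (fun (a : Fin 2) (j : Fin (n + 1)) => ∑ i, A i j * w a i)
  have hb₂' : ∀ B : ℕ, 1 ≤ B → ∀ x ∈ sbox (n + 1) (obox K B), ∀ a, bil A (w a) x ∈ obox K (c₂ * B) := by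
    intro B hB x hx a
    rw [bil_lin]
    exact hb₂ B hB x hx a
  obtain ⟨C₃, hC₃, hbin⟩ := binary (bil A (w 1) (w 1)) (bil A (w 0) (w 0)) (h.ne 1) (h.ne 0) hδ
  refine ⟨C₃ * (c₂ : ℝ) ^ δ, by positivity, fun B hB y => ?_⟩
  have hB1 : (1 : ℝ) ≤ B := by exact_mod_cast hB
  set F := ((sbox (n + 1) (obox K B)).filter fun x => bil A x x = 0 ∧
        ¬ (bil A (w 1) (w 1) * bil A (w 0) x ^ 2 + bil A (w 0) (w 0) * bil A (w 1) x ^ 2 = 0)).filter
        fun x => (fun l => ∑ i, R l i * x i) = y with hF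
  have hFm : ∀ x ∈ F, x ∈ sbox (n + 1) (obox K B) ∧ bil A x x = 0 ∧
      ¬ (bil A (w 1) (w 1) * bil A (w 0) x ^ 2 + bil A (w 0) (w 0) * bil A (w 1) x ^ 2 = 0) ∧
      (fun l => ∑ i, R l i * x i) = y := by
    intro x hx
    rw [hF, Finset.mem_filter, Finset.mem_filter] at hx
    exact ⟨hx.1.1, hx.1.2.1, hx.1.2.2, hx.2⟩
  have hdiff : ∀ x ∈ F, ∀ x' ∈ F, (fun i => (x i : K) - (x' i : K)) ∈
      Submodule.span K (Set.range (toV w)) := by
    intro x hx x' hx'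
    refine hred.diff x x' fun l => ?_
    have e1 := congrFun (hFm x hx).2.2.2 l
    have e2 := congrFun (hFm x' hx').2.2.2 l
    exact e1.trans e2.symm
  rcases F.eq_empty_or_nonempty with h0 | ⟨x₀, hx₀⟩
  · rw [h0]; simp only [Finset.card_empty, Nat.cast_zero]; positivity
  obtain ⟨k1, k2, k3, k4⟩ := hFm x₀ hx₀
  have hcard : F.card = (F.image fun x => (bil A (w 0) x, bil A (w 1) x)).card := by
    rw [Finset.card_image_of_injOn]
    intro x hx x' hx' hxx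
    simp only [Prod.mk.injEq] at hxx
    refine fibre_inj hA h x x' (hdiff x hx x' hx') ?_
    intro a
    fin_cases a
    · exact hxx.1
    · exact hxx.2
  rw [hcard]
  have h1 := hbin (c₂ * B) (Nat.mul_pos hc₂ hB) (bil A (w 1) (w 1) * bil A (w 0) x₀ ^ 2 +
    bil A (w 0) (w 0) * bil A (w 1) x₀ ^ 2) k3 (F.image fun x => (bil A (w 0) x, bil A (w 1) x)) (by
      intro z hz
      obtain ⟨x, hx, rfl⟩ := Finset.mem_image.1 hz
      obtain ⟨g1, g2, g3, g4⟩ := hFm x hx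
      refine ⟨hb₂' B hB x g1 0, hb₂' B hB x g1 1, ?_⟩
      have e1 := fibre_const hA h x x₀ g2 k2 (hdiff x hx x₀ hx₀)
      have e2 : ∀ x, ∑ a, (∏ b ∈ Finset.univ.erase a, bil A (w b) (w b)) * bil A (w a) x ^ 2 =
          bil A (w 1) (w 1) * bil A (w 0) x ^ 2 + bil A (w 0) (w 0) * bil A (w 1) x ^ 2 := by
        intro x
        have f0 : (Finset.univ.erase (0 : Fin 2)) = {1} := by decide
        have f1 : (Finset.univ.erase (1 : Fin 2)) = {0} := by decide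
        rw [Fin.sum_univ_two, f0, f1, Finset.prod_singleton, Finset.prod_singleton]
      rw [e2, e2] at e1
      exact e1)
  refine h1.trans (le_of_eq ?_)
  push_cast
  rw [Real.mul_rpow (by positivity) (by positivity), mul_assoc]

end Pool.Agent.R366.QD
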