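import Mathlib
import Pool.Agent.R366.QD.Fib

set_option autoImplicit false

/-!
# Sparse sets of points of quadrics
-/

namespace Pool.Agent.R366.QD

open NumberField MvPolynomial Pool.Agent.R366.NF Pool.Agent.TH910.Voj

open scoped Classical

variable {K : Type} [Field K] [NumberField K] {n n' N N' : ℕ}

/-- a property of the integral points of a quadric cone is sparse if it holds for few of them -/
def XSparse (A : Fin (n + 1) → Fin (n + 1) → 𝓞 K) (e : Fin (n + 1) × Idx K ≃ Fin (N + 1))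
    (P : ℕ → (Fin (N + 1) → ℤ) → Prop) : Prop :=
  ∃ c : ℝ, 0 < c ∧ ∃ C : ℝ, 0 < C ∧ ∀ B : ℕ, 1 ≤ B →
    (Set.ncard {u | u ∈ box (N + 1) B ∧ (bil A (vec e u) (vec e u) = 0 ∧ P B u)} : ℝ) ≤
      C * (B : ℝ) ^ (((n : ℝ) - 1) * Module.finrank ℚ K - c)

variable {A : Fin (n + 1) → Fin (n + 1) → 𝓞 K} {e : Fin (n + 1) × Idx K ≃ Fin (N + 1)}

lemma XSparse.mono {P Q : ℕ → (Fin (N + 1) → ℤ) → Prop} (h : XSparse A e Q)
    (hPQ : ∀ B u, 1 ≤ B → u ∈ box (N + 1) B → bil A (vec e u) (vec e u) = 0 → P B u → Q B u) :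
    XSparse A e P := by
  obtain ⟨c, hc, C, hC, h⟩ := h
  refine ⟨c, hc, C, hC, fun B hB => le_trans ?_ (h B hB)⟩
  exact_mod_cast Set.ncard_le_ncard
    (s := {u | u ∈ box (N + 1) B ∧ (bil A (vec e u) (vec e u) = 0 ∧ P B u)})
    (t := {u | u ∈ box (N + 1) B ∧ (bil A (vec e u) (vec e u) = 0 ∧ Q B u)})
    (fun x hx => ⟨hx.1, hx.2.1, hPQ B x hB hx.1 hx.2.1 hx.2.2⟩)
    (finite_sub (N + 1) B _)

lemma XSparse.or {P Q : ℕ → (Fin (N + 1) → ℤ) → Prop} (hP : XSparse A e P) (hQ : XSparse A e Q) :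
    XSparse A e (fun B x => P B x ∨ Q B x) := by
  obtain ⟨c, hc, C, hC, h⟩ := hP
  obtain ⟨c', hc', C', hC', h'⟩ := hQ
  refine ⟨min c c', lt_min hc hc', C + C', by positivity, fun B hB => ?_⟩
  have hB1 : (1 : ℝ) ≤ B := by exact_mod_cast hB
  have h1 : (Set.ncard {u | u ∈ box (N + 1) B ∧ (bil A (vec e u) (vec e u) = 0 ∧ (P B u ∨ Q B u))} : ℝ) ≤
      Set.ncard {u | u ∈ box (N + 1) B ∧ (bil A (vec e u) (vec e u) = 0 ∧ P B u)} +
      Set.ncard {u | u ∈ box (N + 1) B ∧ (bil A (vec e u) (vec e u) = 0 ∧ Q B u)} := by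
    have h2 : {u | u ∈ box (N + 1) B ∧ (bil A (vec e u) (vec e u) = 0 ∧ (P B u ∨ Q B u))} =
        {u | u ∈ box (N + 1) B ∧ (bil A (vec e u) (vec e u) = 0 ∧ P B u)} ∪
        {u | u ∈ box (N + 1) B ∧ (bil A (vec e u) (vec e u) = 0 ∧ Q B u)} := by
      ext x; simp only [Set.mem_ofPred_eq, Set.mem_union]; tauto
    rw [h2]
    exact_mod_cast Set.ncard_union_le _ _
  refine h1.trans ?_
  rw [add_mul]
  refine add_le_add ((h B hB).trans ?_) ((h' B hB).trans ?_)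
  · refine mul_le_mul_of_nonneg_left (Real.rpow_le_rpow_of_exponent_le hB1 ?_) hC.le
    linarith [min_le_left c c']
  · refine mul_le_mul_of_nonneg_left (Real.rpow_le_rpow_of_exponent_le hB1 ?_) hC'.le
    linarith [min_le_right c c']

lemma XSparse.false : XSparse A e (fun _ _ => False) := by
  refine ⟨1, one_pos, 1, one_pos, fun B hB => ?_⟩
  simp only [and_false, Set.ofPred_false, Set.ncard_empty, Nat.cast_zero]
  positivity

lemma XSparse.exists_fin {q : ℕ} {P : Fin q → ℕ → (Fin (N + 1) → ℤ) → Prop}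
    (h : ∀ j, XSparse A e (P j)) : XSparse A e (fun B x => ∃ j, P j B x) := by
  classical
  have key : ∀ s : Finset (Fin q), XSparse A e (fun B x => ∃ j ∈ s, P j B x) := by
    intro s
    induction s using Finset.induction_on with
    | empty => exact (XSparse.false (A := A) (e := e)).mono (by simp)
    | insert a s _ ih =>
      refine ((h a).or ih).mono ?_
      rintro B x - - - ⟨j, hj, hjx⟩
      rcases Finset.mem_insert.mp hj with rfl | hj
      · exact Or.inl hjx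
      · exact Or.inr ⟨j, hj, hjx⟩
  refine (key Finset.univ).mono ?_
  rintro B x - - - ⟨j, hj⟩
  exact ⟨j, Finset.mem_univ j, hj⟩

/-- It suffices to bound the number of bad vectors in large boxes. -/
lemma XSparse.of_eventually (hn : 1 ≤ n) {P Q : ℕ → (Fin (N + 1) → ℤ) → Prop} (h : XSparse A e Q)
    (B₀ : ℕ) (hPQ : ∀ B u, B₀ ≤ B → 1 ≤ B → u ∈ box (N + 1) B → bil A (vec e u) (vec e u) = 0 →
      P B u → Q B u) : XSparse A e P := by
  obtain ⟨c, hc, C, hC, h⟩ := h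
  refine ⟨c, hc, C + (2 * B₀ + 1 : ℕ) ^ (N + 1) * (B₀ + 1 : ℝ) ^ c, by positivity, fun B hB => ?_⟩
  have hB1 : (1 : ℝ) ≤ B := by exact_mod_cast hB
  have hB0 : (0 : ℝ) < B := by linarith
  set κ : ℝ := ((n : ℝ) - 1) * Module.finrank ℚ K with hκ
  have hκ0 : 0 ≤ κ := by
    have : (1 : ℝ) ≤ n := by exact_mod_cast hn
    exact mul_nonneg (by linarith) (Nat.cast_nonneg _)
  have hpos : 0 ≤ (B : ℝ) ^ (κ - c) := by positivity
  by_cases hBB : B₀ ≤ B
  · have h1 : (Set.ncard {u | u ∈ box (N + 1) B ∧ (bil A (vec e u) (vec e u) = 0 ∧ P B u)} : ℝ) ≤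
        Set.ncard {u | u ∈ box (N + 1) B ∧ (bil A (vec e u) (vec e u) = 0 ∧ Q B u)} := by
      exact_mod_cast Set.ncard_le_ncard
        (s := {u | u ∈ box (N + 1) B ∧ (bil A (vec e u) (vec e u) = 0 ∧ P B u)})
        (t := {u | u ∈ box (N + 1) B ∧ (bil A (vec e u) (vec e u) = 0 ∧ Q B u)})
        (fun x hx => ⟨hx.1, hx.2.1, hPQ B x hBB hB hx.1 hx.2.1 hx.2.2⟩)
        (finite_sub (N + 1) B _)
    refine h1.trans ((h B hB).trans ?_)
    refine mul_le_mul_of_nonneg_right ?_ hpos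
    have : 0 ≤ ((2 * B₀ + 1 : ℕ) : ℝ) ^ (N + 1) * (B₀ + 1 : ℝ) ^ c := by positivity
    linarith
  · rw [not_le] at hBB
    have h1 : (Set.ncard {u | u ∈ box (N + 1) B ∧ (bil A (vec e u) (vec e u) = 0 ∧ P B u)} : ℝ) ≤
        (box (N + 1) B).card := by
      have h2 := Set.ncard_le_ncard (s := {u | u ∈ box (N + 1) B ∧
        (bil A (vec e u) (vec e u) = 0 ∧ P B u)}) (t := (box (N + 1) B : Set _))
        (fun x hx => hx.1) (box (N + 1) B).finite_toSet
      rw [Set.ncard_coe_finset] at h2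
      exact_mod_cast h2
    rw [card_box] at h1
    have h2 : (((2 * B + 1) ^ (N + 1) : ℕ) : ℝ) ≤ ((2 * B₀ + 1 : ℕ) : ℝ) ^ (N + 1) := by
      have : (2 * B + 1) ^ (N + 1) ≤ (2 * B₀ + 1) ^ (N + 1) := Nat.pow_le_pow_left (by omega) _
      exact_mod_cast this
    have h3 : 1 ≤ (B₀ + 1 : ℝ) ^ c * (B : ℝ) ^ (κ - c) := by
      have e1 : (B : ℝ) ^ (-c) ≤ (B : ℝ) ^ (κ - c) :=
        Real.rpow_le_rpow_of_exponent_le hB1 (by linarith)
      have e2 : (B : ℝ) ^ c ≤ (B₀ + 1 : ℝ) ^ c := by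
        refine Real.rpow_le_rpow hB0.le ?_ hc.le
        have : (B : ℝ) ≤ B₀ := by exact_mod_cast hBB.le
        linarith
      calc (1 : ℝ) = (B : ℝ) ^ c * (B : ℝ) ^ (-c) := by
            rw [← Real.rpow_add hB0, add_neg_cancel, Real.rpow_zero]
        _ ≤ _ := mul_le_mul e2 e1 (by positivity) (by positivity)
    have h4 : (0 : ℝ) ≤ ((2 * B₀ + 1 : ℕ) : ℝ) ^ (N + 1) := by positivity
    calc _ ≤ ((2 * B₀ + 1 : ℕ) : ℝ) ^ (N + 1) * 1 := by rw [mul_one]; exact h1.trans h2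
      _ ≤ ((2 * B₀ + 1 : ℕ) : ℝ) ^ (N + 1) * ((B₀ + 1 : ℝ) ^ c * (B : ℝ) ^ (κ - c)) :=
          mul_le_mul_of_nonneg_left h3 h4
      _ ≤ _ := by
          rw [← mul_assoc]
          refine mul_le_mul_of_nonneg_right ?_ hpos
          linarith

/-- the integral coordinates of an integral vector -/
noncomputable def crd (e' : Fin (n' + 1) × Idx K ≃ Fin (N' + 1)) (y : Fin (n' + 1) → 𝓞 K) :
    Fin (N' + 1) → ℤ :=
  fun z => (RingOfIntegers.basis K).repr (y (e'.symm z).1) (e'.symm z).2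

lemma vec_crd (e' : Fin (n' + 1) × Idx K ≃ Fin (N' + 1)) (y : Fin (n' + 1) → 𝓞 K) :
    vec e' (crd e' y) = y := by
  funext i
  rw [vec]
  unfold crd
  simp only [Equiv.symm_apply_apply]
  have h1 := (RingOfIntegers.basis K).sum_repr (y i)
  conv_rhs => rw [← h1]
  exact Finset.sum_congr rfl fun l _ => by rw [zsmul_eq_mul]

lemma crd_mem (e' : Fin (n' + 1) × Idx K ≃ Fin (N' + 1)) {B : ℕ} {y : Fin (n' + 1) → 𝓞 K}
    (hy : ∀ l, y l ∈ obox K B) : crd e' y ∈ box (N' + 1) B := by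
  rw [mem_box]
  intro z
  exact repr_of_mem_obox (hy _) _

/-- the projection -/
noncomputable def proj (R : Fin (n' + 1) → Fin (n + 1) → 𝓞 K) (x : Fin (n + 1) → 𝓞 K) :
    Fin (n' + 1) → 𝓞 K := fun l => ∑ i, R l i * x i

/-- **sparse sets, pulled back to a quadric** -/
theorem pull (hA : ∀ i j, A i j = A j i) {w : Fin 5 → Fin (n + 1) → 𝓞 K} (h : Orth A w)
    {v R : Fin (n' + 1) → Fin (n + 1) → 𝓞 K} {D : ℤ}
    (hred : Red (toV fun a : Fin 2 => w (a.castLE (by norm_num))) v R D)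
    (hn : n = n' + 2) (e : Fin (n + 1) × Idx K ≃ Fin (N + 1))
    (e' : Fin (n' + 1) × Idx K ≃ Fin (N' + 1)) :
    ∃ c₀ : ℕ, 1 ≤ c₀ ∧ (∀ B : ℕ, 1 ≤ B → ∀ u ∈ box (N + 1) B,
        crd e' (proj R (vec e u)) ∈ box (N' + 1) (c₀ * B)) ∧
      ∀ P : ℕ → (Fin (N' + 1) → ℤ) → Prop, Sparse (N' + 1) P →
        XSparse A e (fun B u => P (c₀ * B) (crd e' (proj R (vec e u)))) := by
  set d : ℕ := Module.finrank ℚ K with hd
  have hd1 : 1 ≤ d := Module.finrank_pos (R := ℚ) (M := K)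
  have hd0 : (1 : ℝ) ≤ d := by exact_mod_cast hd1
  set w₂ : Fin 2 → Fin (n + 1) → 𝓞 K := fun a => w (a.castLE (by norm_num)) with hw₂
  have h₂ : Orth A w₂ := ⟨fun a => h.ne _, fun a b hab => h.orth _ _ (by
    intro h'
    exact hab (Fin.castLE_injective _ h'))⟩
  have hw20 : w₂ 0 = w 0 := rfl
  have hw21 : w₂ 1 = w 1 := rfl
  obtain ⟨c₀, hc₀, hb⟩ := lin_boxes R
  refine ⟨c₀, hc₀, fun B hB u hu => ?_, fun P hP => ?_⟩
  · exact crd_mem e' fun l => hb B hB _ (vec_mem e hu) l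
  obtain ⟨c', hc', C', hC', hP⟩ := hP
  set δ : ℝ := c' / 2 with hδ
  have hδ0 : 0 < δ := by positivity
  obtain ⟨C₅, hC₅, h5⟩ := fib5 hA h (δ := 1 / 2) (by norm_num)
  obtain ⟨C₂, hC₂, h2⟩ := fib2 hA h₂ hred hδ0
  refine ⟨min (1 / 2) (c' / 2), by positivity, C₅ + C₂ * (C' * (c₀ : ℝ) ^ (((N' + 1 : ℕ) : ℝ) - c')),
    by positivity, fun B hB => ?_⟩
  have hB1 : (1 : ℝ) ≤ B := by exact_mod_cast hB
  have hBpos : (0 : ℝ) < B := by linarith
  set deg : (Fin (n + 1) → 𝓞 K) → Prop := fun x => bil A (w 1) (w 1) * bil A (w 0) x ^ 2 +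
        bil A (w 0) (w 0) * bil A (w 1) x ^ 2 = 0 with hdeg
  set Z := (box (N + 1) B).filter fun u => bil A (vec e u) (vec e u) = 0 ∧
    P (c₀ * B) (crd e' (proj R (vec e u))) with hZ
  have hZs : {u | u ∈ box (N + 1) B ∧ (bil A (vec e u) (vec e u) = 0 ∧
      P (c₀ * B) (crd e' (proj R (vec e u))))} = (Z : Set _) := by
    ext u
    simp only [hZ, Set.mem_ofPred_eq, Finset.coe_filter]
  rw [hZs, Set.ncard_coe_finset]
  have hsplit : Z.card = (Z.filter fun u => deg (vec e u)).card +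
      (Z.filter fun u => ¬ deg (vec e u)).card := (Finset.card_filter_add_card_filter_not _).symm
  have hZm : ∀ u ∈ Z, u ∈ box (N + 1) B ∧ bil A (vec e u) (vec e u) = 0 ∧
      P (c₀ * B) (crd e' (proj R (vec e u))) := fun u hu => by
    rw [hZ, Finset.mem_filter] at hu; exact hu
  -- the degenerate part
  have hc1 : ((Z.filter fun u => deg (vec e u)).card : ℝ) ≤
      C₅ * (B : ℝ) ^ (((n : ℝ) - 2) * d + 1 / 2) := by
    refine le_trans ?_ (h5 B hB)
    have : (Z.filter fun u => deg (vec e u)).card ≤ ((sbox (n + 1) (obox K B)).filter fun x =>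
        bil A x x = 0 ∧ deg x).card := by
      refine Finset.card_le_card_of_injOn (vec e) ?_ (vec_injective e).injOn
      intro u hu
      rw [Finset.mem_coe, Finset.mem_filter] at hu
      obtain ⟨g1, g2, g3⟩ := hZm u hu.1
      rw [Finset.mem_coe, Finset.mem_filter]
      exact ⟨vec_mem e g1, g2, hu.2⟩
    exact_mod_cast this
  -- the other part
  have hfin := finite_sub (N' + 1) (c₀ * B) (P (c₀ * B))
  set D₂ : ℕ := ⌊C₂ * (B : ℝ) ^ δ⌋₊ with hD₂
  have hc2 : (Z.filter fun u => ¬ deg (vec e u)).card ≤ D₂ * hfin.toFinset.card := by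
    refine le_trans (Finset.card_le_mul_card_image (f := fun u => crd e' (proj R (vec e u)))
      (Z.filter fun u => ¬ deg (vec e u)) D₂ ?_) ?_
    · intro y _
      refine Nat.le_floor ?_
      refine le_trans ?_ (h2 B hB (vec e' y))
      have : ((Z.filter fun u => ¬ deg (vec e u)).filter fun u => crd e' (proj R (vec e u)) = y).card ≤
          (((sbox (n + 1) (obox K B)).filter fun x => bil A x x = 0 ∧ ¬ deg x).filter
            fun x => (fun l => ∑ i, R l i * x i) = vec e' y).card := by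
        refine Finset.card_le_card_of_injOn (vec e) ?_ (vec_injective e).injOn
        intro u hu
        rw [Finset.mem_coe, Finset.mem_filter, Finset.mem_filter] at hu
        obtain ⟨g1, g2, g3⟩ := hZm u hu.1.1
        rw [Finset.mem_coe, Finset.mem_filter, Finset.mem_filter]
        refine ⟨⟨vec_mem e g1, g2, hu.1.2⟩, ?_⟩
        rw [← hu.2, vec_crd]
        rfl
      exact_mod_cast this
    · refine Nat.mul_le_mul_left _ (Finset.card_le_card ?_)
      intro y hy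
      obtain ⟨u, hu, rfl⟩ := Finset.mem_image.1 hy
      rw [Finset.mem_filter] at hu
      obtain ⟨g1, g2, g3⟩ := hZm u hu.1
      rw [Set.Finite.mem_toFinset]
      exact ⟨crd_mem e' fun l => hb B hB _ (vec_mem e g1) l, g3⟩
  have hcP := hP (c₀ * B) (Nat.mul_pos hc₀ hB)
  rw [Set.ncard_eq_toFinset_card _ hfin] at hcP
  have hN : ((N' + 1 : ℕ) : ℝ) = ((n : ℝ) - 1) * d := by
    have h1 := card_dim e'
    have h3 : ((n' + 1 : ℕ) : ℝ) * d = ((N' + 1 : ℕ) : ℝ) := by exact_mod_cast h1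
    rw [← h3, hn]
    push_cast
    ring
  have g1 : ((Z.filter fun u => ¬ deg (vec e u)).card : ℝ) ≤
      (C₂ * (B : ℝ) ^ δ) * (C' * ((c₀ * B : ℕ) : ℝ) ^ (((N' + 1 : ℕ) : ℝ) - c')) := by
    have e1 : ((Z.filter fun u => ¬ deg (vec e u)).card : ℝ) ≤ (D₂ : ℝ) * hfin.toFinset.card := by
      exact_mod_cast hc2
    exact e1.trans (mul_le_mul (Nat.floor_le (by positivity)) hcP (Nat.cast_nonneg _) (by positivity))
  have g2 : (C₂ * (B : ℝ) ^ δ) * (C' * ((c₀ * B : ℕ) : ℝ) ^ (((N' + 1 : ℕ) : ℝ) - c')) =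
      C₂ * (C' * (c₀ : ℝ) ^ (((N' + 1 : ℕ) : ℝ) - c')) * (B : ℝ) ^ (((n : ℝ) - 1) * d - c' / 2) := by
    push_cast
    rw [Real.mul_rpow (by positivity) (by positivity)]
    have e1 : (B : ℝ) ^ (((n : ℝ) - 1) * d - c' / 2) = (B : ℝ) ^ δ * (B : ℝ) ^ (((N' : ℝ) + 1) - c') := by
      rw [← Real.rpow_add hBpos]
      congr 1
      push_cast at hN
      rw [hN, hδ]; ring
    rw [e1]; ring
  have g3 : (B : ℝ) ^ (((n : ℝ) - 2) * d + 1 / 2) ≤
      (B : ℝ) ^ (((n : ℝ) - 1) * d - min (1 / 2) (c' / 2)) := by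
    refine Real.rpow_le_rpow_of_exponent_le hB1 ?_
    have := min_le_left (1 / 2) (c' / 2)
    nlinarith
  have g4 : (B : ℝ) ^ (((n : ℝ) - 1) * d - c' / 2) ≤
      (B : ℝ) ^ (((n : ℝ) - 1) * d - min (1 / 2) (c' / 2)) := by
    refine Real.rpow_le_rpow_of_exponent_le hB1 ?_
    have := min_le_right (1 / 2) (c' / 2)
    linarith
  have g5 : (Z.card : ℝ) = ((Z.filter fun u => deg (vec e u)).card : ℝ) +
      ((Z.filter fun u => ¬ deg (vec e u)).card : ℝ) := by exact_mod_cast hsplit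
  rw [g5, add_mul]
  rw [g2] at g1
  exact add_le_add (hc1.trans (mul_le_mul_of_nonneg_left g3 hC₅.le))
    (g1.trans (mul_le_mul_of_nonneg_left g4 (by positivity)))

end Pool.Agent.R366.QD
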