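import Mathlib
import Pool.Agent.R366.QD.Pull
import Pool.Agent.R366.NF.Ideal

set_option autoImplicit false

/-!
# Values and common divisors at almost all integral vectors
-/

namespace Pool.Agent.R366.QD

open NumberField MvPolynomial IsDedekindDomain Pool.Agent.R366.NF Pool.Agent.TH910.Voj
  Pool.Agent.H813R3.Voj

open scoped Classical

variable {K : Type} [Field K] [NumberField K] {N : ℕ}

/-- large radicals -/
lemma sparse_rad (f : MvPolynomial (Fin (N + 1)) (𝓞 K)) {k μ : ℕ} (hhom : f.IsHomogeneous k)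
    (hirr : Irreducible (toK f)) (hfew : FewCoincidences (normPoly f) μ) {η : ℝ} (hη : 0 < η) :
    Sparse (N + 1) (fun B u => val f u = 0 ∨
      Real.log (rd (Algebra.norm ℤ (val f u)).natAbs) < ((μ : ℝ) - η) * Real.log B) := by
  have hf0 : f ≠ 0 := by
    intro h0
    exact hirr.ne_zero (by rw [h0, map_zero])
  refine ((sparse_zeros _ (normPoly_ne_zero hf0)).or
    (sparse_small_rad' (normPoly f) (Module.finrank ℚ K * k)
      (normPoly_hom hhom).totalDegree_le hfew hη)).mono ?_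
  intro B u hB hu hbad
  have hB1 : (1 : ℝ) ≤ B := by exact_mod_cast hB
  have hBpos : (0 : ℝ) < B := by linarith
  by_cases h0 : val f u = 0
  · left
    rw [eval_normPoly', h0]
    exact Algebra.norm_eq_zero_iff.2 rfl
  · right
    rcases hbad with h | h
    · exact absurd h h0
    refine ⟨?_, ?_⟩
    · rw [eval_normPoly']
      exact Algebra.norm_ne_zero_iff.2 h0
    · rw [← Real.log_rpow hBpos] at h
      rw [eval_normPoly']
      by_contra hcon
      rw [not_le] at hcon
      exact absurd (Real.log_le_log (by positivity) hcon.le) (not_le.2 h)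

/-- small common radical divisors -/
lemma sparse_common (f g : MvPolynomial (Fin (N + 1)) (𝓞 K)) {k : ℕ} (hhom : f.IsHomogeneous k)
    (hirr : Irreducible (toK f)) (hfg : ¬ toK f ∣ toK g) {η : ℝ} (hη : 0 < η) :
    Sparse (N + 1) (fun B u => ¬ ∃ G : ℤ, G ≠ 0 ∧ Real.log (rd G.natAbs) ≤ η * Real.log B ∧
      ∀ p : ℕ, p.Prime → ∀ v : HeightOneSpectrum (𝓞 K), (p : 𝓞 K) ∈ v.asIdeal →
        val f u ∈ v.asIdeal → val g u ∈ v.asIdeal → (p : ℤ) ∣ G) := by
  obtain ⟨P, k', hPhom, hPirr, A, hPA⟩ := exists_below f hhom hirr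
  obtain ⟨G, hG1, U, V, hUV⟩ := exists_int_elim f g hirr hfg
  have hPG : ¬ toQ P ∣ toQ G := by
    intro h2
    apply hG1
    have h3 : toK f ∣ toK (ofZ K P) := by
      rw [hPA, map_mul]; exact dvd_mul_left _ _
    refine h3.trans ?_
    rw [toK_ofZ, toK_ofZ]
    exact map_dvd _ h2
  have hP0 : P ≠ 0 := by
    intro h0
    exact hPirr.ne_zero (by rw [h0, map_zero])
  refine ((sparse_zeros _ hP0).or (sparse_gcd P G hPhom hPirr hPG hη)).mono ?_
  intro B u hB hu hbad
  have hB1 : (1 : ℝ) ≤ B := by exact_mod_cast hB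
  have hBpos : (0 : ℝ) < B := by linarith
  by_contra hcon
  rw [not_or] at hcon
  obtain ⟨h3, h4⟩ := hcon
  push Not at h4
  apply hbad
  have hgpos : 0 < Int.gcd (eval u P) (eval u G) := Int.gcd_pos_of_ne_zero_left _ h3
  refine ⟨((Int.gcd (eval u P) (eval u G) : ℕ) : ℤ), by exact_mod_cast hgpos.ne', ?_, ?_⟩
  · rw [Int.natAbs_natCast, ← Real.log_rpow hBpos]
    exact Real.log_le_log (by exact_mod_cast rd_pos _) (h4 h3)
  · intro p hp v hpv hi hj
    have h1 : (p : ℤ) ∣ eval u P := by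
      refine dvd_of_mem hp hpv ?_
      rw [← val_ofZ, hPA, val_mul]
      exact Ideal.mul_mem_left _ _ hi
    have h2 : (p : ℤ) ∣ eval u G := by
      refine dvd_of_mem hp hpv ?_
      rw [← val_ofZ, hUV, val_add, val_mul, val_mul]
      exact Ideal.add_mem _ (Ideal.mul_mem_left _ _ hi) (Ideal.mul_mem_left _ _ hj)
    exact Int.dvd_coe_gcd h1 h2

/-- large values and small common divisors -/
lemma sparse_full (f g : MvPolynomial (Fin (N + 1)) (𝓞 K)) {k : ℕ} (hhom : f.IsHomogeneous k)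
    (hirr : Irreducible (toK f)) (hfg : ¬ toK f ∣ toK g) {η : ℝ} (hη : 0 < η) (hη1 : η ≤ 1) :
    Sparse (N + 1) (fun B u => val f u = 0 ∨
      Real.log |((Algebra.norm ℤ (val f u) : ℤ) : ℝ)| <
        (((Module.finrank ℚ K * k : ℕ) : ℝ) - η) * Real.log B ∨
      ¬ ∃ G : ℤ, G ≠ 0 ∧ Real.log |(G : ℝ)| ≤ η * Real.log B ∧
        (G : 𝓞 K) ∈ Ideal.span {val f u, val g u}) := by
  have hf0 : f ≠ 0 := by
    intro h0
    exact hirr.ne_zero (by rw [h0, map_zero])
  obtain ⟨P, k', hPhom, hPirr, A, hPA⟩ := exists_below f hhom hirr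
  obtain ⟨G₀, hG1, U, V, hUV⟩ := exists_int_elim f g hirr hfg
  have hPG : ¬ toQ P ∣ toQ G₀ := by
    intro h2
    apply hG1
    have h3 : toK f ∣ toK (ofZ K P) := by
      rw [hPA, map_mul]; exact dvd_mul_left _ _
    refine h3.trans ?_
    rw [toK_ofZ, toK_ofZ]
    exact map_dvd _ h2
  have hP0 : P ≠ 0 := by
    intro h0
    exact hPirr.ne_zero (by rw [h0, map_zero])
  have hsp := ((sparse_zeros _ (normPoly_ne_zero hf0)).or
      (sparse_small_value (normPoly f) (normPoly_hom hhom) (normPoly_ne_zero hf0) hη hη1)).or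
    ((sparse_zeros _ hP0).or (Pool.Agent.R366.TC.sparse_full_gcd P G₀ hPhom hPirr hPG hη))
  refine hsp.mono ?_
  intro B u hB hu hbad
  by_contra hcon
  rw [not_or, not_or, not_or] at hcon
  obtain ⟨⟨h1, h2⟩, h3, h4⟩ := hcon
  push Not at h2 h4
  have hB1 : (1 : ℝ) ≤ B := by exact_mod_cast hB
  have hBpos : (0 : ℝ) < B := by linarith
  have hFy : val f u ≠ 0 := by
    intro h0
    apply h1
    rw [eval_normPoly', h0]
    exact Algebra.norm_eq_zero_iff.2 rfl
  rcases hbad with h | h | h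
  · exact hFy h
  · have h6 := (h2 h1).le
    rw [eval_normPoly', Nat.cast_natAbs, Int.cast_abs] at h6
    have h7 := Real.log_le_log (by positivity) h6
    rw [Real.log_rpow hBpos] at h7
    linarith
  · apply h
    have hgpos : 0 < Int.gcd (eval u P) (eval u G₀) := Int.gcd_pos_of_ne_zero_left _ h3
    refine ⟨((Int.gcd (eval u P) (eval u G₀) : ℕ) : ℤ), by exact_mod_cast hgpos.ne', ?_, ?_⟩
    · rw [← Real.log_rpow hBpos]
      have h7 : |(((Int.gcd (eval u P) (eval u G₀) : ℕ) : ℤ) : ℝ)| =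
          (Int.gcd (eval u P) (eval u G₀) : ℕ) := by
        rw [Int.cast_natCast, Nat.abs_cast]
      rw [h7]
      exact Real.log_le_log (by exact_mod_cast hgpos) (h4 h3)
    · have e1 : ((eval u P : ℤ) : 𝓞 K) ∈ Ideal.span {val f u, val g u} := by
        rw [← val_ofZ, hPA, val_mul]
        exact Ideal.mul_mem_left _ _ (Ideal.subset_span (by simp))
      have e2 : ((eval u G₀ : ℤ) : 𝓞 K) ∈ Ideal.span {val f u, val g u} := by
        rw [← val_ofZ, hUV, val_add, val_mul, val_mul]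
        exact Ideal.add_mem _ (Ideal.mul_mem_left _ _ (Ideal.subset_span (by simp)))
          (Ideal.mul_mem_left _ _ (Ideal.subset_span (by simp)))
      rw [Int.gcd_eq_gcd_ab]
      push_cast
      exact Ideal.add_mem _ (Ideal.mul_mem_right _ _ e1) (Ideal.mul_mem_right _ _ e2)

end Pool.Agent.R366.QD
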