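import Mathlib
import Pool.Agent.R366.QD.Sp

set_option autoImplicit false

/-!
# Values and common divisors of forms at almost all integral points of quadrics
-/

namespace Pool.Agent.R366.QD

open NumberField MvPolynomial IsDedekindDomain Pool.Agent.R366.NF Pool.Agent.TH910.Voj
  Pool.Agent.H813R3.Voj

open scoped Classical

variable {K : Type} [Field K] [NumberField K] {n n' N N' : ℕ}

variable (K) in
lemma exists_equiv (n' : ℕ) : ∃ N' : ℕ, Nonempty (Fin (n' + 1) × Idx K ≃ Fin (N' + 1)) := by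
  have hd1 : 1 ≤ Module.finrank ℚ K := Module.finrank_pos (R := ℚ) (M := K)
  obtain ⟨N, hN⟩ : ∃ N, (n' + 1) * Module.finrank ℚ K = N + 1 := by
    have : 0 < (n' + 1) * Module.finrank ℚ K := Nat.mul_pos (Nat.succ_pos n') hd1
    exact ⟨(n' + 1) * Module.finrank ℚ K - 1, by omega⟩
  refine ⟨N, ⟨Fintype.equivFinOfCardEq ?_⟩⟩
  rw [Fintype.card_prod, Fintype.card_fin, card_idx, ← hN]

/-- the first two vectors -/
abbrev two (w : Fin 5 → Fin (n + 1) → 𝓞 K) : Fin 2 → Fin (n + 1) → 𝓞 K :=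
  fun a => w (a.castLE (by norm_num))

lemma setup {A : Fin (n + 1) → Fin (n + 1) → 𝓞 K} (hA : ∀ i j, A i j = A j i)
    (h5 : RankGe A Set.univ 5) {W : Set (Fin (n + 1) → K)} (h2 : RankGe A W 2)
    (hW : ∀ (c : K), ∀ x ∈ W, c • x ∈ W) (hn : n = n' + 2) :
    ∃ (w : Fin 5 → Fin (n + 1) → 𝓞 K) (v R : Fin (n' + 1) → Fin (n + 1) → 𝓞 K) (D : ℤ),
      Orth A w ∧ Red (toV (two w)) v R D ∧ ∀ a, toV (two w) a ∈ W := by
  obtain ⟨w, hw, hw0, hw1⟩ := exists_system hA h5 h2 hW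
  have h₂ : Orth A (two w) := ⟨fun a => hw.ne _, fun a b hab => hw.orth _ _ (by
    intro h'
    exact hab (Fin.castLE_injective _ h'))⟩
  obtain ⟨r', v, R, D, hr, hD, h1, h2, h3⟩ := exists_red (toV (two w)) h₂.indep
  obtain rfl : r' = n' + 1 := by omega
  refine ⟨w, v, R, D, hw, ⟨hD, h1, h2, h3⟩, fun a => ?_⟩
  fin_cases a
  · exact hw0
  · exact hw1

/-- transfer of the values -/
lemma val_proj (e' : Fin (n' + 1) × Idx K ≃ Fin (N' + 1)) {w : Fin 5 → Fin (n + 1) → 𝓞 K}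
    {v R : Fin (n' + 1) → Fin (n + 1) → 𝓞 K} {D : ℤ} (hred : Red (toV (two w)) v R D)
    {F : MvPolynomial (Fin (n + 1)) (𝓞 K)} {k : ℕ} (hF : F.IsHomogeneous k)
    (hw : ∀ a, Along F (toV (two w) a)) (x : Fin (n + 1) → 𝓞 K) :
    val (weil e' (red v F)) (crd e' (proj R x)) = (D : 𝓞 K) ^ k * eval x F := by
  rw [val_weil, vec_crd]
  exact hred.eval hF hw x

lemma prime_dvd_norm {D : ℤ} {k : ℕ} {y : 𝓞 K} {p : ℕ} (hp : p.Prime)
    (h : p ∣ (Algebra.norm ℤ ((D : 𝓞 K) ^ k * y)).natAbs) :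
    p ∣ D.natAbs ∨ p ∣ (Algebra.norm ℤ y).natAbs := by
  rw [map_mul, map_pow, Int.natAbs_mul, Int.natAbs_pow] at h
  rcases hp.dvd_mul.1 h with h1 | h1
  · left
    have h2 := hp.dvd_of_dvd_pow h1
    have h3 : (D : 𝓞 K) = algebraMap ℤ (𝓞 K) D := by simp
    rw [h3, Algebra.norm_algebraMap, Int.natAbs_pow] at h2
    exact hp.dvd_of_dvd_pow h2
  · exact Or.inr h1

/-- large radicals, on quadrics -/
lemma x_rad {A : Fin (n + 1) → Fin (n + 1) → 𝓞 K} (hA : ∀ i j, A i j = A j i)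
    (h5 : RankGe A Set.univ 5) (hn : n = n' + 2) (e : Fin (n + 1) × Idx K ≃ Fin (N + 1))
    (e' : Fin (n' + 1) × Idx K ≃ Fin (N' + 1))
    {w : Fin 5 → Fin (n + 1) → 𝓞 K} (hw : Orth A w)
    {v R : Fin (n' + 1) → Fin (n + 1) → 𝓞 K} {D : ℤ} (hred : Red (toV (two w)) v R D)
    (F : MvPolynomial (Fin (n + 1)) (𝓞 K)) {k μ : ℕ} (hF : F.IsHomogeneous k)
    (hirr : Irreducible (toK F)) (hwF : ∀ a, Along F (toV (two w) a))
    (hfew : FewCoincidences (normPoly (weil e' (red v F))) μ) {η : ℝ} (hη : 0 < η) :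
    XSparse A e (fun B u => eval (vec e u) F = 0 ∨
      Real.log (rd (Algebra.norm ℤ (eval (vec e u) F)).natAbs) < ((μ : ℝ) - η) * Real.log B) := by
  obtain ⟨c₀, hc₀, -, hpull⟩ := pull hA hw hred hn e e'
  have hsp := sparse_rad (weil e' (red v F)) (weil_hom e' (red_hom v hF))
    (weil_irreducible e' (hred.irreducible hF hwF hirr)) hfew (η := η / 2) (by positivity)
  have hc₀1 : (1 : ℝ) ≤ c₀ := by exact_mod_cast hc₀
  set cD : ℝ := ∑ p ∈ D.natAbs.primeFactors, Real.log (p : ℝ) with hcD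
  obtain ⟨B₀, hB₀⟩ : ∃ B₀ : ℕ, ∀ B : ℕ, B₀ ≤ B →
      cD + η / 2 * Real.log c₀ ≤ η / 2 * Real.log B := by
    have h1 : Filter.Tendsto (fun B : ℕ => η / 2 * Real.log B) Filter.atTop Filter.atTop :=
      (Real.tendsto_log_atTop.comp tendsto_natCast_atTop_atTop).const_mul_atTop (by positivity)
    exact Filter.eventually_atTop.mp (h1.eventually_ge_atTop (cD + η / 2 * Real.log c₀))
  refine (hpull _ hsp).of_eventually (by omega) B₀ ?_
  intro B u hBB hB hu hQ hbad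
  have hB1 : (1 : ℝ) ≤ B := by exact_mod_cast hB
  have hBpos : (0 : ℝ) < B := by linarith
  have hDK : (D : 𝓞 K) ≠ 0 := Int.cast_ne_zero.2 hred.hD
  rw [val_proj e' hred hF hwF]
  by_cases h0 : eval (vec e u) F = 0
  · left; rw [h0, mul_zero]
  right
  rcases hbad with h | h
  · exact absurd h h0
  have h1 : Real.log (rd (Algebra.norm ℤ ((D : 𝓞 K) ^ k * eval (vec e u) F)).natAbs) ≤
      cD + Real.log (rd (Algebra.norm ℤ (eval (vec e u) F)).natAbs) := by
    rw [log_rd, log_rd, hcD]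
    have hN0 : (Algebra.norm ℤ (eval (vec e u) F)).natAbs ≠ 0 :=
      Int.natAbs_ne_zero.2 (Algebra.norm_ne_zero_iff.2 h0)
    have h2 : (Algebra.norm ℤ ((D : 𝓞 K) ^ k * eval (vec e u) F)).natAbs.primeFactors ⊆
        D.natAbs.primeFactors ∪ (Algebra.norm ℤ (eval (vec e u) F)).natAbs.primeFactors := by
      intro p hp
      have hpp := Nat.prime_of_mem_primeFactors hp
      rcases prime_dvd_norm hpp (Nat.dvd_of_mem_primeFactors hp) with h3 | h3
      · exact Finset.mem_union_left _ (Nat.mem_primeFactors.2 ⟨hpp, h3, Int.natAbs_ne_zero.2 hred.hD⟩)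
      · exact Finset.mem_union_right _ (Nat.mem_primeFactors.2 ⟨hpp, h3, hN0⟩)
    have h3 := Finset.sum_le_sum_of_subset_of_nonneg h2 (f := fun p : ℕ => Real.log (p : ℝ))
      fun p _ _ => Real.log_natCast_nonneg p
    refine h3.trans ?_
    rw [← Finset.sum_union_inter]
    have : 0 ≤ ∑ p ∈ D.natAbs.primeFactors ∩
        (Algebra.norm ℤ (eval (vec e u) F)).natAbs.primeFactors, Real.log (p : ℝ) :=
      Finset.sum_nonneg fun p _ => Real.log_natCast_nonneg p
    linarith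
  have h2 : Real.log ((c₀ * B : ℕ) : ℝ) = Real.log c₀ + Real.log B := by
    push_cast
    rw [Real.log_mul (by positivity) (by positivity)]
  rw [h2]
  have h3 := hB₀ B hBB
  have h4 : 0 ≤ Real.log c₀ := Real.log_nonneg hc₀1
  have h5 : (0 : ℝ) ≤ μ := Nat.cast_nonneg _
  have h6 : ((μ : ℝ) - η / 2) * (Real.log c₀ + Real.log B) =
      ((μ : ℝ) - η) * Real.log B + η / 2 * Real.log B - η / 2 * Real.log c₀ + μ * Real.log c₀ := by ring
  rw [h6]
  have h7 : 0 ≤ μ * Real.log c₀ := mul_nonneg h5 h4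
  linarith

/-- small common radical divisors, on quadrics -/
lemma x_common {A : Fin (n + 1) → Fin (n + 1) → 𝓞 K} (hA : ∀ i j, A i j = A j i)
    (hn : n = n' + 2) (e : Fin (n + 1) × Idx K ≃ Fin (N + 1))
    (e' : Fin (n' + 1) × Idx K ≃ Fin (N' + 1))
    {w : Fin 5 → Fin (n + 1) → 𝓞 K} (hw : Orth A w)
    {v R : Fin (n' + 1) → Fin (n + 1) → 𝓞 K} {D : ℤ} (hred : Red (toV (two w)) v R D)
    (F G : MvPolynomial (Fin (n + 1)) (𝓞 K)) {k k' : ℕ} (hF : F.IsHomogeneous k)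
    (hG : G.IsHomogeneous k')
    (hirr : Irreducible (toK F)) (hFG : ¬ toK F ∣ toK G) (hwF : ∀ a, Along F (toV (two w) a))
    (hwG : ∀ a, Along G (toV (two w) a)) {η : ℝ} (hη : 0 < η) :
    XSparse A e (fun B u => ¬ ∃ g : ℤ, g ≠ 0 ∧ Real.log (rd g.natAbs) ≤ η * Real.log B ∧
      ∀ p : ℕ, p.Prime → ∀ v : HeightOneSpectrum (𝓞 K), (p : 𝓞 K) ∈ v.asIdeal →
        eval (vec e u) F ∈ v.asIdeal → eval (vec e u) G ∈ v.asIdeal → (p : ℤ) ∣ g) := by
  obtain ⟨c₀, hc₀, -, hpull⟩ := pull hA hw hred hn e e'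
  have hsp := sparse_common (weil e' (red v F)) (weil e' (red v G)) (weil_hom e' (red_hom v hF))
    (weil_irreducible e' (hred.irreducible hF hwF hirr))
    (fun h => hFG (hred.dvd hF hwF hG hwG (weil_dvd e' h))) (η := η / 2) (by positivity)
  have hc₀1 : (1 : ℝ) ≤ c₀ := by exact_mod_cast hc₀
  obtain ⟨B₀, hB₀⟩ : ∃ B₀ : ℕ, ∀ B : ℕ, B₀ ≤ B → η / 2 * Real.log c₀ ≤ η / 2 * Real.log B := by
    have h1 : Filter.Tendsto (fun B : ℕ => η / 2 * Real.log B) Filter.atTop Filter.atTop :=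
      (Real.tendsto_log_atTop.comp tendsto_natCast_atTop_atTop).const_mul_atTop (by positivity)
    exact Filter.eventually_atTop.mp (h1.eventually_ge_atTop (η / 2 * Real.log c₀))
  refine (hpull _ hsp).of_eventually (by omega) B₀ ?_
  intro B u hBB hB hu hQ hbad
  have hB1 : (1 : ℝ) ≤ B := by exact_mod_cast hB
  have hBpos : (0 : ℝ) < B := by linarith
  rw [val_proj e' hred hF hwF, val_proj e' hred hG hwG]
  rintro ⟨g, hg0, hg1, hg2⟩
  apply hbad
  refine ⟨g, hg0, ?_, fun p hp v hpv h1 h2 => hg2 p hp v hpv (Ideal.mul_mem_left _ _ h1)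
    (Ideal.mul_mem_left _ _ h2)⟩
  have h2 : Real.log ((c₀ * B : ℕ) : ℝ) = Real.log c₀ + Real.log B := by
    push_cast
    rw [Real.log_mul (by positivity) (by positivity)]
  rw [h2] at hg1
  have h3 := hB₀ B hBB
  linarith

/-- heights relative to ideals, on quadrics -/
lemma x_ideal {A : Fin (n + 1) → Fin (n + 1) → 𝓞 K} (hA : ∀ i j, A i j = A j i)
    (hn : n = n' + 2) (e : Fin (n + 1) × Idx K ≃ Fin (N + 1))
    (e' : Fin (n' + 1) × Idx K ≃ Fin (N' + 1))
    {w : Fin 5 → Fin (n + 1) → 𝓞 K} (hw : Orth A w)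
    {v R : Fin (n' + 1) → Fin (n + 1) → 𝓞 K} {D : ℤ} (hred : Red (toV (two w)) v R D)
    (F G : MvPolynomial (Fin (n + 1)) (𝓞 K)) {k k' : ℕ} (hF : F.IsHomogeneous k)
    (hG : G.IsHomogeneous k')
    (hirr : Irreducible (toK F)) (hFG : ¬ toK F ∣ toK G) (hwF : ∀ a, Along F (toV (two w) a))
    (hwG : ∀ a, Along G (toV (two w) a)) {η : ℝ} (hη : 0 < η) :
    XSparse A e (fun B u => eval (vec e u) F = 0 ∨
      η * Real.log B < idealHeight F G k k' (fun i => (vec e u i : K))) := by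
  obtain ⟨c₀, hc₀, -, hpull⟩ := pull hA hw hred hn e e'
  set d := Module.finrank ℚ K with hd
  have hd0 : (0 : ℝ) < d := by exact_mod_cast Module.finrank_pos (R := ℚ) (M := K)
  set ε : ℝ := min 1 (η / (2 * (d + 1))) with hε
  have hε0 : 0 < ε := lt_min one_pos (by positivity)
  have hε1 : ε ≤ 1 := min_le_left _ _
  have hεη : (1 + d) * ε ≤ η / 2 := by
    have h1 : ε ≤ η / (2 * (d + 1)) := min_le_right _ _
    calc (1 + (d : ℝ)) * ε ≤ (1 + d) * (η / (2 * (d + 1))) :=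
          mul_le_mul_of_nonneg_left h1 (by positivity)
      _ = η / 2 := by field_simp; ring
  have hsp := sparse_full (weil e' (red v F)) (weil e' (red v G)) (weil_hom e' (red_hom v hF))
    (weil_irreducible e' (hred.irreducible hF hwF hirr))
    (fun h => hFG (hred.dvd hF hwF hG hwG (weil_dvd e' h))) hε0 hε1
  have hc₀1 : (1 : ℝ) ≤ c₀ := by exact_mod_cast hc₀
  obtain ⟨A₀, hA₀, hsize⟩ := exists_size K
  have hDK : (D : 𝓞 K) ≠ 0 := Int.cast_ne_zero.2 hred.hD
  set cN : ℝ := Real.log |((Algebra.norm ℤ ((D : 𝓞 K) ^ k) : ℤ) : ℝ)| with hcN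
  obtain ⟨B₀, hB₀⟩ : ∃ B₀ : ℕ, ∀ B : ℕ, B₀ ≤ B →
      d * (k * Real.log A₀) + cN + (1 + d) * ε * Real.log c₀ ≤ η / 2 * Real.log B := by
    have h1 : Filter.Tendsto (fun B : ℕ => η / 2 * Real.log B) Filter.atTop Filter.atTop :=
      (Real.tendsto_log_atTop.comp tendsto_natCast_atTop_atTop).const_mul_atTop (by positivity)
    exact Filter.eventually_atTop.mp (h1.eventually_ge_atTop
      (d * (k * Real.log A₀) + cN + (1 + d) * ε * Real.log c₀))
  refine (hpull _ hsp).of_eventually (by omega) B₀ ?_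
  intro B u hBB hB hu hQ hbad
  have hB1 : (1 : ℝ) ≤ B := by exact_mod_cast hB
  have hBpos : (0 : ℝ) < B := by linarith
  have hlogB : 0 ≤ Real.log B := Real.log_nonneg hB1
  rw [val_proj e' hred hF hwF, val_proj e' hred hG hwG]
  by_cases h0 : eval (vec e u) F = 0
  · left; rw [h0, mul_zero]
  right
  by_contra hcon
  rw [not_or, not_not] at hcon
  obtain ⟨h1, g, hg0, hg1, hg2⟩ := hcon
  rw [not_lt] at h1
  have hlt : η * Real.log B < idealHeight F G k k' (fun i => (vec e u i : K)) := by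
    rcases hbad with h | h
    · exact absurd h h0
    · exact h
  have hN0 : Algebra.norm ℤ (eval (vec e u) F) ≠ 0 := Algebra.norm_ne_zero_iff.2 h0
  have hND : Algebra.norm ℤ ((D : 𝓞 K) ^ k) ≠ 0 := Algebra.norm_ne_zero_iff.2 (pow_ne_zero _ hDK)
  have h2 : Real.log |((Algebra.norm ℤ ((D : 𝓞 K) ^ k * eval (vec e u) F) : ℤ) : ℝ)| =
      cN + Real.log |((Algebra.norm ℤ (eval (vec e u) F) : ℤ) : ℝ)| := by
    rw [map_mul, hcN]
    push_cast
    rw [abs_mul, Real.log_mul (by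
        rw [abs_ne_zero]; exact_mod_cast hND) (by rw [abs_ne_zero]; exact_mod_cast hN0)]
  have hle := idealHeight_le F G k k' (vec e u) (vec_ne_zero_of_eval hF hirr h0) h0 (A₀ * B)
    (fun w i => hsize B hB _ (mem_sbox.1 (vec_mem e hu) i) w) g hg0 (by
      refine Ideal.span_le.2 ?_ hg2
      intro z hz
      rcases hz with rfl | hz
      · exact Ideal.mul_mem_left _ _ (Ideal.subset_span (by simp))
      · rw [Set.mem_singleton_iff] at hz
        rw [hz]
        exact Ideal.mul_mem_left _ _ (Ideal.subset_span (by simp)))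
  have h3 : Real.log ((c₀ * B : ℕ) : ℝ) = Real.log c₀ + Real.log B := by
    push_cast
    rw [Real.log_mul (by positivity) (by positivity)]
  rw [h2, h3] at h1
  rw [h3] at hg1
  have h7 : Real.log (A₀ * B) = Real.log A₀ + Real.log B :=
    Real.log_mul (by linarith) hBpos.ne'
  rw [h7, ← hd] at hle
  have h8 := hB₀ B hBB
  have h9 := mul_le_mul_of_nonneg_left hg1 hd0.le
  have h10 := mul_le_mul_of_nonneg_right hεη hlogB
  have h4 : 0 ≤ Real.log c₀ := Real.log_nonneg hc₀1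
  push_cast at h1
  have h11 : ((d : ℝ) * k - ε) * (Real.log c₀ + Real.log B) =
      d * k * Real.log B - ε * Real.log B + d * k * Real.log c₀ - ε * Real.log c₀ := by ring
  rw [h11] at h1
  have h12 : (0 : ℝ) ≤ d * k * Real.log c₀ := by positivity
  nlinarith

end Pool.Agent.R366.QD
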