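import Mathlib
import Pool.Agent.R366.QD.XSp

set_option autoImplicit false

/-!
# The weights of the forms, after restriction
-/

namespace Pool.Agent.R366.QD

open NumberField MvPolynomial IsDedekindDomain Pool.Agent.R366.NF Pool.Agent.TH910.Voj
  Pool.Agent.H813R3.Voj

open scoped Classical

variable {K : Type} [Field K] [NumberField K] {n n' N N' : ℕ}

lemma normform_red {w : Fin 5 → Fin (n + 1) → 𝓞 K}
    {v R : Fin (n' + 1) → Fin (n + 1) → 𝓞 K} {D : ℤ} (hred : Red (toV (two w)) v R D)
    {F : MvPolynomial (Fin (n + 1)) (𝓞 K)} (hw : ∀ a, Along F (toV (two w) a)) {m : ℕ}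
    (h : IsNormForm F m) : IsNormForm (red v F) m := by
  obtain ⟨E, _, _, _, c, α, J, hc, hJ, hind, hval⟩ := h
  set lam : (Fin (n + 1) → K) →ₗ[K] E :=
    { toFun := fun x => ∑ i, algebraMap K E (x i) * α i
      map_add' := by
        intro x y
        rw [← Finset.sum_add_distrib]
        exact Finset.sum_congr rfl fun i _ => by rw [Pi.add_apply, map_add, add_mul]
      map_smul' := by
        intro t x
        rw [RingHom.id_apply, Finset.smul_sum]
        exact Finset.sum_congr rfl fun i _ => by
          rw [Pi.smul_apply, smul_eq_mul, map_mul, Algebra.smul_def, mul_assoc] } with hlam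
  have hlam' : ∀ x, lam x = ∑ i, algebraMap K E (x i) * α i := fun x => rfl
  have hvalK : ∀ x : Fin (n + 1) → 𝓞 K, ((eval x F : 𝓞 K) : K) =
      c * Algebra.norm K (lam fun i => (x i : K)) := hval
  -- the form vanishes along the vectors
  have hw0 : ∀ a, lam (toV (two w) a) = 0 := by
    intro a
    have h1 := hw a 1 0
    rw [zero_add, one_smul] at h1
    have h2 : aeval (toV (two w) a) F = ((eval (two w a) F : 𝓞 K) : K) := by
      rw [coe_eval, aeval_eq_eval]
    have h3 : aeval (0 : Fin (n + 1) → K) F = ((eval (0 : Fin (n + 1) → 𝓞 K) F : 𝓞 K) : K) := by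
      rw [coe_eval, aeval_eq_eval]
      congr 1
    rw [h2, h3, hvalK, hvalK] at h1
    have h4 : (fun i => (((0 : Fin (n + 1) → 𝓞 K) i : 𝓞 K) : K)) = 0 := by
      funext i
      simp
    have : Module.Finite K E := Module.Finite.of_restrictScalars_finite ℚ K E
    have hpos : 0 < Module.finrank K E := Module.finrank_pos
    rw [h4, map_zero, Algebra.norm_zero, mul_zero] at h1
    rcases mul_eq_zero.1 h1 with h5 | h5
    · exact absurd h5 hc
    · exact Algebra.norm_eq_zero_iff.1 h5
  set α' : Fin (n' + 1) → E := fun l => lam (fun i => (v l i : K)) with hα'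
  have hspanw : ∀ y ∈ Submodule.span K (Set.range (toV (two w))), lam y = 0 := by
    intro y hy
    obtain ⟨γ, rfl⟩ := (Submodule.mem_span_range_iff_exists_fun K).1 hy
    rw [map_sum]
    exact Finset.sum_eq_zero fun a _ => by rw [map_smul, hw0, smul_zero]
  have hDK : (D : K) ≠ 0 := Int.cast_ne_zero.2 hred.hD
  have hin : ∀ x, lam x ∈ Submodule.span K (Set.range α') := by
    intro x
    have h1 := hspanw _ (hred.mem x)
    rw [map_sub, map_smul, map_sum, sub_eq_zero] at h1
    have h2 : lam x = (D : K)⁻¹ • ∑ l, lam ((∑ i, (R l i : K) * x i) • (fun i => (v l i : K))) := by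
      rw [← h1, smul_smul, inv_mul_cancel₀ hDK, one_smul]
    rw [h2]
    refine Submodule.smul_mem _ _ (Submodule.sum_mem _ fun l _ => ?_)
    rw [map_smul]
    exact Submodule.smul_mem _ _ (Submodule.subset_span ⟨l, rfl⟩)
  have hαin : ∀ j, α j ∈ Submodule.span K (Set.range α') := by
    intro j
    have h1 := hin (Pi.single j 1)
    have h2 : lam (Pi.single j 1) = α j := by
      rw [hlam', Finset.sum_eq_single j]
      · simp
      · intro i _ hij; simp [hij]
      · intro h; exact absurd (Finset.mem_univ j) h
    rwa [h2] at h1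
  obtain ⟨κ, a, ha, hspan, hlin⟩ := exists_linearIndependent' K α'
  have hκ : Finite κ := Finite.of_injective a ha
  have : Fintype κ := Fintype.ofFinite κ
  have hm : m ≤ Fintype.card κ := by
    have : FiniteDimensional K (Submodule.span K (Set.range α')) :=
      FiniteDimensional.span_of_finite K (Set.finite_range α')
    have h1 : Module.finrank K (Submodule.span K (Set.range α')) = Fintype.card κ := by
      rw [← hspan]
      exact finrank_span_eq_card hlin
    rw [← h1, ← hJ, ← Fintype.card_coe J]
    have h2 : LinearIndependent K (fun j : J => (⟨α j, hαin j⟩ : Submodule.span K (Set.range α'))) := by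
      refine LinearIndependent.of_comp (Submodule.span K (Set.range α')).subtype ?_
      exact hind
    exact h2.fintype_card_le_finrank
  obtain ⟨J', hJ's, hJ'c⟩ := Finset.exists_subset_card_eq (s := Finset.univ.image a) (n := m) (by
    rw [Finset.card_image_of_injective _ ha, Finset.card_univ]
    exact hm)
  have hinv : ∀ j : J', ∃ t : κ, a t = j := by
    intro j
    obtain ⟨t, -, ht⟩ := Finset.mem_image.1 (hJ's j.2)
    exact ⟨t, ht⟩
  choose t ht using hinv
  have htinj : Function.Injective t := by
    intro j j' hjj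
    exact Subtype.ext (by rw [← ht j, ← ht j', hjj])
  refine ⟨E, inferInstance, inferInstance, inferInstance, c, α', J', hc, hJ'c, ?_, fun y => ?_⟩
  · have h1 := hlin.comp t htinj
    have h2 : (α' ∘ a) ∘ t = fun j : J' => α' j := by
      funext j
      show α' (a (t j)) = α' j
      rw [ht]
    rwa [h2] at h1
  · rw [eval_red, hval]
    congr 2
    have h1 : ∀ i, algebraMap K E (((∑ l, v l i * y l : 𝓞 K)) : K) * α i =
        ∑ l, algebraMap K E (y l : K) * (algebraMap K E (v l i : K) * α i) := by
      intro i
      have e1 : ((∑ l, v l i * y l : 𝓞 K) : K) = ∑ l, (v l i : K) * (y l : K) := by push_cast; rfl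
      rw [e1, map_sum, Finset.sum_mul]
      refine Finset.sum_congr rfl fun l _ => ?_
      rw [map_mul]; ring
    rw [Finset.sum_congr rfl fun i _ => h1 i, Finset.sum_comm]
    refine Finset.sum_congr rfl fun l _ => ?_
    rw [hα', ← Finset.mul_sum]
    rfl

/-- the weights -/
lemma weight_red (e' : Fin (n' + 1) × Idx K ≃ Fin (N' + 1)) {w : Fin 5 → Fin (n + 1) → 𝓞 K}
    {v R : Fin (n' + 1) → Fin (n + 1) → 𝓞 K} {D : ℤ} (hred : Red (toV (two w)) v R D)
    {F : MvPolynomial (Fin (n + 1)) (𝓞 K)} {k m : ℕ} (hF : F.IsHomogeneous k)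
    (hirr : Irreducible (toK F)) (hw : ∀ a, Along F (toV (two w) a))
    (hm : m ≤ 1 ∨ (m ≤ k ∧ k ≤ 2) ∨ IsNormForm F m) :
    FewCoincidences (normPoly (weil e' (red v F))) (Module.finrank ℚ K * m) := by
  have hirr' := hred.irreducible hF hw hirr
  have h1 : m ≤ 1 → FewCoincidences (normPoly (weil e' (red v F))) (Module.finrank ℚ K * m) :=
    fun h => few_norm ((few_any_nf e' (red v F) hirr').mono (by nlinarith))
  rcases hm with h | h | h
  · exact h1 h
  · by_cases h2 : m ≤ 1
    · exact h1 h2
    · have h3 : m = 2 := by omega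
      have h4 : k = 2 := by omega
      rw [h3]
      exact few_norm (few_two_nf e' (red v F) (h4 ▸ red_hom v hF) hirr')
  · exact few_normform e' (red v F) m (normform_red hred hw h)

end Pool.Agent.R366.QD
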