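import Mathlib
import Pool.Agent.R366.QD.NF
import Pool.Agent.R366.NF.Final

set_option autoImplicit false

/-!
# Truncated counting functions at almost all rational points of quadrics
-/

namespace Pool.Agent.R366.QD

open NumberField MvPolynomial IsDedekindDomain Pool.Agent.R366.NF Pool.Agent.TH910.Voj
  Pool.Agent.H813R3.Voj

open scoped Classical

variable {K : Type} [Field K] [NumberField K] {n n' N N' q : ℕ}

lemma RankGe.le {m r : ℕ} {A : Fin m → Fin m → 𝓞 K} {W : Set (Fin m → K)} (h : RankGe A W r) :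
    r ≤ m := by
  obtain ⟨w, -, h1, h2⟩ := h
  have h3 : LinearIndependent K w := by
    rw [Fintype.linearIndependent_iff]
    intro c hc a
    have h4 : bil (toM A) (∑ b, c b • w b) (w a) = 0 := by rw [hc, bil_zero_left]
    rw [bil_sum_left, Finset.sum_eq_single a] at h4
    · rw [bil_smul_left] at h4
      rcases mul_eq_zero.1 h4 with h5 | h5
      · exact h5
      · exact absurd h5 (h1 a)
    · intro b _ hba
      rw [bil_smul_left]
      have h6 : bil (toM A) (w b) (w a) = 0 := h2 b a hba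
      rw [h6, mul_zero]
    · intro h'; exact absurd (Finset.mem_univ a) h'
  have h4 := h3.fintype_card_le_finrank
  rwa [Fintype.card_fin, Module.finrank_fintype_fun_eq_card, Fintype.card_fin] at h4

/-- **the truncated counting function, at the integral points of quadrics** -/
theorem x_trunc {A : Fin (n + 1) → Fin (n + 1) → 𝓞 K} (hA : ∀ i j, A i j = A j i)
    (h5 : RankGe A Set.univ 5) (hn : n = n' + 2) (e : Fin (n + 1) × Idx K ≃ Fin (N + 1))
    (F : Fin q → MvPolynomial (Fin (n + 1)) (𝓞 K)) (k m : Fin q → ℕ)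
    (hhom : ∀ j, (F j).IsHomogeneous (k j)) (hirr : ∀ j, Irreducible (toK (F j)))
    (hdist : ∀ i j, i ≠ j → ¬ Associated (toK (F i)) (toK (F j)))
    (hm : ∀ j, m j ≤ 1 ∨ (m j ≤ k j ∧ k j ≤ 2) ∨ IsNormForm (F j) (m j))
    (hpair : ∀ i j, RankGe A {w | Along (F i) w ∧ Along (F j) w} 2)
    (S : Finset ℕ) (hS : ∀ p ∈ S, p.Prime) (θ : ℝ)
    (hθ : θ < Module.finrank ℚ K * ∑ j, (m j : ℝ)) :
    XSparse A e (fun B u => (∃ j, eval (vec e u) (F j) = 0) ∨
      truncI S (fun j => eval (vec e u) (F j)) < θ * Real.log B) := by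
  set d : ℕ := Module.finrank ℚ K with hd
  obtain ⟨N', ⟨e'⟩⟩ := exists_equiv K n'
  set μ : Fin q → ℕ := fun j => d * m j with hμ
  have hθ' : θ < ∑ j, (μ j : ℝ) := by
    rw [hμ]
    push_cast
    rw [← Finset.mul_sum]
    exact hθ
  set Δ : ℝ := (∑ j, (μ j : ℝ)) - θ with hΔ
  have hΔ0 : 0 < Δ := by rw [hΔ]; linarith
  set η : ℝ := Δ / (2 * (q + 1) ^ 2) with hη
  have hη0 : 0 < η := by positivity
  obtain ⟨B₀, hB₀⟩ : ∃ B₀ : ℕ, ∀ B : ℕ, B₀ ≤ B →
      q * ∑ p ∈ S, Real.log (p : ℝ) ≤ Δ / 2 * Real.log B := by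
    have h1 : Filter.Tendsto (fun B : ℕ => Δ / 2 * Real.log B) Filter.atTop Filter.atTop :=
      (Real.tendsto_log_atTop.comp tendsto_natCast_atTop_atTop).const_mul_atTop (by positivity)
    exact Filter.eventually_atTop.mp (h1.eventually_ge_atTop (q * ∑ p ∈ S, Real.log (p : ℝ)))
  have hsmul : ∀ i j (c : K), ∀ x ∈ {w | Along (F i) w ∧ Along (F j) w},
      c • x ∈ {w | Along (F i) w ∧ Along (F j) w} := fun i j c x hx => ⟨hx.1.smul c, hx.2.smul c⟩
  have hsp1 : ∀ j, XSparse A e (fun B u => eval (vec e u) (F j) = 0 ∨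
      Real.log (rd (Algebra.norm ℤ (eval (vec e u) (F j))).natAbs) <
        ((μ j : ℝ) - η) * Real.log B) := by
    intro j
    obtain ⟨w, v, R, D, hw, hred, hW⟩ := setup hA h5 (hpair j j) (hsmul j j) hn
    exact x_rad hA h5 hn e e' hw hred (F j) (hhom j) (hirr j) (fun a => (hW a).1)
      (weight_red e' hred (hhom j) (hirr j) (fun a => (hW a).1) (hm j)) hη0
  have hsp2 : ∀ i j, XSparse A e (fun B u => i ≠ j ∧
      ¬ ∃ g : ℤ, g ≠ 0 ∧ Real.log (rd g.natAbs) ≤ η * Real.log B ∧
      ∀ p : ℕ, p.Prime → ∀ v : HeightOneSpectrum (𝓞 K), (p : 𝓞 K) ∈ v.asIdeal →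
        eval (vec e u) (F i) ∈ v.asIdeal → eval (vec e u) (F j) ∈ v.asIdeal → (p : ℤ) ∣ g) := by
    intro i j
    by_cases hij : i = j
    · refine (XSparse.false (A := A) (e := e)).mono ?_
      rintro B u - - - ⟨h, -⟩
      exact h hij
    · obtain ⟨w, v, R, D, hw, hred, hW⟩ := setup hA h5 (hpair i j) (hsmul i j) hn
      have h1 : ¬ toK (F i) ∣ toK (F j) := by
        intro h
        exact hdist i j hij ((hirr i).associated_of_dvd (hirr j) h)
      exact (x_common hA hn e e' hw hred (F i) (F j) (hhom i) (hhom j) (hirr i) h1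
        (fun a => (hW a).1) (fun a => (hW a).2) hη0).mono fun B u _ _ _ h => h.2
  refine ((XSparse.exists_fin hsp1).or (XSparse.exists_fin fun i =>
    XSparse.exists_fin fun j => hsp2 i j)).of_eventually (by omega) B₀ ?_
  intro B u hBB hB hu hQ hbad
  by_contra hcon
  rw [not_or] at hcon
  obtain ⟨hc1, hc2⟩ := hcon
  push Not at hc1 hc2
  have hB1 : (1 : ℝ) ≤ B := by exact_mod_cast hB
  have hBpos : (0 : ℝ) < B := by linarith
  have hlogB : 0 ≤ Real.log B := Real.log_nonneg hB1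
  have hval : ∀ j, eval (vec e u) (F j) ≠ 0 := fun j => (hc1 j).1
  have hlt : truncI S (fun j => eval (vec e u) (F j)) < θ * Real.log B := by
    rcases hbad with ⟨j, hj⟩ | h
    · exact absurd hj (hval j)
    · exact h
  have hex : ∀ i j, ∃ g : ℤ, i ≠ j → g ≠ 0 ∧ Real.log (rd g.natAbs) ≤ η * Real.log B ∧
      ∀ p : ℕ, p.Prime → ∀ v : HeightOneSpectrum (𝓞 K), (p : 𝓞 K) ∈ v.asIdeal →
        eval (vec e u) (F i) ∈ v.asIdeal → eval (vec e u) (F j) ∈ v.asIdeal → (p : ℤ) ∣ g := by
    intro i j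
    by_cases hij : i = j
    · exact ⟨0, fun h => absurd hij h⟩
    · obtain ⟨g, hg⟩ := hc2 i j hij
      exact ⟨g, fun _ => hg⟩
  choose g hg using hex
  have hlow := trunc_lower S hS (fun j => eval (vec e u) (F j)) hval g
    (fun i j hij => (hg i j hij).1) (fun i j hij => (hg i j hij).2.2)
  have hj : ∀ j, ((μ j : ℝ) - η - q * η) * Real.log B ≤
      Real.log (rd (Algebra.norm ℤ (eval (vec e u) (F j))).natAbs) -
        ∑ i ∈ Finset.univ.erase j, Real.log (rd (g i j).natAbs) := by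
    intro j
    have e1 := (hc1 j).2
    have e2 : ∑ i ∈ Finset.univ.erase j, Real.log (rd (g i j).natAbs) ≤
        ∑ _i ∈ Finset.univ.erase j, η * Real.log B :=
      Finset.sum_le_sum fun i hi => (hg i j (Finset.ne_of_mem_erase hi)).2.1
    have e3 : ∑ _i ∈ Finset.univ.erase j, η * Real.log B ≤ q * (η * Real.log B) := by
      rw [Finset.sum_const, nsmul_eq_mul]
      refine mul_le_mul_of_nonneg_right ?_ (by positivity)
      have := Finset.card_le_univ (Finset.univ.erase j)
      rw [Fintype.card_fin] at this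
      exact_mod_cast this
    have e4 : ((μ j : ℝ) - η - q * η) * Real.log B =
        ((μ j : ℝ) - η) * Real.log B - q * (η * Real.log B) := by ring
    rw [e4]
    linarith
  have h2 := Finset.sum_le_sum fun j (_ : j ∈ Finset.univ) => hj j
  rw [← Finset.sum_mul, Finset.sum_sub_distrib, Finset.sum_sub_distrib, Finset.sum_const,
    Finset.sum_const, Finset.card_univ, Fintype.card_fin, nsmul_eq_mul, nsmul_eq_mul] at h2
  have h9 := hB₀ B hBB
  have h8 : (q : ℝ) * η + q * (q * η) ≤ Δ / 2 := by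
    have hq : (0 : ℝ) ≤ q := Nat.cast_nonneg q
    have h10 : (q : ℝ) * η + q * (q * η) ≤ (q + 1) ^ 2 * η := by nlinarith
    refine h10.trans (le_of_eq ?_)
    rw [hη]
    field_simp
  have h10 := mul_le_mul_of_nonneg_right h8 hlogB
  have h11 : (∑ j, (μ j : ℝ)) = θ + Δ := by rw [hΔ]; ring
  rw [h11] at h2
  have h12 : (θ + Δ - q * η - q * (q * η)) * Real.log B = θ * Real.log B + Δ * Real.log B -
    (q * η + q * (q * η)) * Real.log B := by ring
  linarith

open scoped LinearAlgebra.Projectivization in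
/-- **almost all rational points of quadrics over a number field** -/
theorem main_quadric {A : Fin (n + 1) → Fin (n + 1) → 𝓞 K} (hA : ∀ i j, A i j = A j i)
    (h5 : RankGe A Set.univ 5)
    (F : Fin q → MvPolynomial (Fin (n + 1)) (𝓞 K)) (k m : Fin q → ℕ)
    (hhom : ∀ j, (F j).IsHomogeneous (k j)) (hirr : ∀ j, Irreducible (toK (F j)))
    (hdist : ∀ i j, i ≠ j → ¬ Associated (toK (F i)) (toK (F j)))
    (hm : ∀ j, m j ≤ 1 ∨ (m j ≤ k j ∧ k j ≤ 2) ∨ IsNormForm (F j) (m j))
    (hpair : ∀ i j, RankGe A {w | Along (F i) w ∧ Along (F j) w} 2)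
    (S : Finset ℕ) (hS : ∀ p ∈ S, p.Prime)
    {t : ℕ} (F' G' : Fin t → MvPolynomial (Fin (n + 1)) (𝓞 K)) (k' e' : Fin t → ℕ)
    (hF' : ∀ l, (F' l).IsHomogeneous (k' l)) (hG' : ∀ l, (G' l).IsHomogeneous (e' l))
    (hirr' : ∀ l, Irreducible (toK (F' l))) (hcop : ∀ l, ¬ toK (F' l) ∣ toK (G' l))
    (hideal : ∀ l, RankGe A {w | Along (F' l) w ∧ Along (G' l) w} 2)
    (Λ : ℝ) (hΛ : 0 ≤ Λ) (θ : ℝ) (hθ : θ < ∑ j, (m j : ℝ)) :
    ∃ c : ℝ, 0 < c ∧ ∃ C : ℝ, ∀ B : ℕ, 1 ≤ B → ∃ Z : Finset (ℙ K (Fin (n + 1) → K)),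
      (Z.card : ℝ) ≤ C * (B : ℝ) ^ ((n : ℝ) - 1 - c) ∧
      ∀ P : ℙ K (Fin (n + 1) → K), ∑ i, ∑ j, (A i j : K) * P.rep i * P.rep j = 0 →
        P.mulHeight ≤ B → P ∉ Z →
        (∀ j, aeval P.rep (F j) ≠ 0) ∧
        θ * Real.log B + Λ * ∑ l, idealHeight (F' l) (G' l) (k' l) (e' l) P.rep ≤
          truncatedCount S F k P.rep := by
  set d : ℕ := Module.finrank ℚ K with hd
  have hd1 : 1 ≤ d := Module.finrank_pos (R := ℚ) (M := K)
  have hd0 : (0 : ℝ) < d := by exact_mod_cast hd1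
  -- the identification
  obtain ⟨N, hN⟩ : ∃ N, (n + 1) * d = N + 1 := by
    have : 0 < (n + 1) * d := Nat.mul_pos (Nat.succ_pos n) hd1
    exact ⟨(n + 1) * d - 1, by omega⟩
  have hcardE : Fintype.card (Fin (n + 1) × Idx K) = N + 1 := by
    rw [Fintype.card_prod, Fintype.card_fin, card_idx, ← hN]
  let e : Fin (n + 1) × Idx K ≃ Fin (N + 1) := Fintype.equivFinOfCardEq hcardE
  obtain ⟨n', hn⟩ : ∃ n', n = n' + 2 := ⟨n - 2, by have := h5.le; omega⟩
  set Δ : ℝ := (∑ j, (m j : ℝ)) - θ with hΔ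
  have hΔ0 : 0 < Δ := by rw [hΔ]; linarith
  set θ₁ : ℝ := θ + Δ / 2 with hθ₁
  set η : ℝ := d * Δ / (8 * (t + 1) * (Λ + 1)) with hη
  have hη0 : 0 < η := by positivity
  have hηd : Λ * (t * η) ≤ d * (Δ / 8) := by
    have h1 : Λ * (t * η) ≤ (Λ + 1) * ((t + 1) * η) := by
      apply mul_le_mul (by linarith) _ (by positivity) (by linarith)
      apply mul_le_mul_of_nonneg_right (by linarith) hη0.le
    refine h1.trans (le_of_eq ?_)
    rw [hη]
    field_simp
  have hspT := x_trunc hA h5 hn e F k m hhom hirr hdist hm hpair S hS (d * θ₁) (by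
      rw [← hd]
      refine mul_lt_mul_of_pos_left ?_ hd0
      rw [hθ₁, hΔ]
      linarith)
  have hspI : ∀ l, XSparse A e (fun B u => eval (vec e u) (F' l) = 0 ∨
      η * Real.log B < idealHeight (F' l) (G' l) (k' l) (e' l) (fun i => (vec e u i : K))) := by
    intro l
    obtain ⟨N', ⟨ε'⟩⟩ := exists_equiv K n'
    obtain ⟨w, v, R, D, hw, hred, hW⟩ := setup hA h5 (hideal l)
      (fun c x hx => ⟨hx.1.smul c, hx.2.smul c⟩) hn
    exact x_ideal hA hn e ε' hw hred (F' l) (G' l) (hF' l) (hG' l) (hirr' l) (hcop l)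
      (fun a => (hW a).1) (fun a => (hW a).2) hη0
  obtain ⟨c', hc', C', hC', hcount⟩ := hspT.or (XSparse.exists_fin hspI)
  obtain ⟨Cr, Mr, hCr, hrep⟩ := rep' K (n := n)
  obtain ⟨Ac, hAc, hcoord⟩ := coord_le K
  choose tt htt y hy hysize Nn hNn hNM hNmem using
    fun P : ℙ K (Fin (n + 1) → K) => hrep P.rep P.rep_nonzero
  set u : ℙ K (Fin (n + 1) → K) → Fin (N + 1) → ℤ := fun P z =>
    (RingOfIntegers.basis K).repr (y P (e.symm z).1) (e.symm z).2 with hu
  have hvec : ∀ P, vec e (u P) = y P := by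
    intro P
    funext i
    rw [vec, hu]
    simp only [Equiv.symm_apply_apply]
    have h1 := (RingOfIntegers.basis K).sum_repr (y P i)
    conv_rhs => rw [← h1]
    exact Finset.sum_congr rfl fun l _ => by rw [zsmul_eq_mul]
  have hysm : ∀ P, (fun i => (y P i : K)) = tt P • P.rep := by
    intro P
    funext i
    rw [Pi.smul_apply, smul_eq_mul]
    exact hy P i
  have hinj : Function.Injective u := by
    intro P P' h
    have h1 : y P = y P' := by rw [← hvec, ← hvec, h]
    have h2 : tt P • P.rep = tt P' • P'.rep := by rw [← hysm, ← hysm, h1]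
    rw [← P.mk_rep, ← P'.mk_rep, Projectivization.mk_eq_mk_iff']
    refine ⟨(tt P)⁻¹ * tt P', ?_⟩
    rw [mul_smul, ← h2, smul_smul, inv_mul_cancel₀ (htt P), one_smul]
  set A₂ : ℝ := max 1 (Ac * Cr) with hA₂
  have hA₂1 : 1 ≤ A₂ := le_max_left _ _
  set Bp : ℕ → ℕ := fun B => ⌈A₂ * (B : ℝ) ^ (1 / (d : ℝ))⌉₊ with hBp
  have hroot : ∀ B : ℕ, 1 ≤ B → 1 ≤ (B : ℝ) ^ (1 / (d : ℝ)) := fun B hB =>
    Real.one_le_rpow (by exact_mod_cast hB) (by positivity)
  have hBp1 : ∀ B : ℕ, 1 ≤ B → 1 ≤ Bp B ∧ (B : ℝ) ^ (1 / (d : ℝ)) ≤ Bp B ∧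
      (Bp B : ℝ) ≤ 2 * A₂ * (B : ℝ) ^ (1 / (d : ℝ)) := by
    intro B hB
    have h1 := hroot B hB
    have h2 : 1 ≤ A₂ * (B : ℝ) ^ (1 / (d : ℝ)) := one_le_mul_of_one_le_of_one_le hA₂1 h1
    have h3 := Nat.le_ceil (A₂ * (B : ℝ) ^ (1 / (d : ℝ)))
    have h4 := (Nat.ceil_lt_add_one (a := A₂ * (B : ℝ) ^ (1 / (d : ℝ))) (by linarith)).le
    refine ⟨?_, ?_, ?_⟩
    · have h5 : (1 : ℝ) ≤ Bp B := h2.trans h3
      exact_mod_cast h5
    · refine le_trans ?_ h3
      exact le_mul_of_one_le_left (by linarith) hA₂1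
    · refine h4.trans ?_
      nlinarith
  have hbox : ∀ B : ℕ, 1 ≤ B → ∀ P : ℙ K (Fin (n + 1) → K), P.mulHeight ≤ B →
      u P ∈ box (N + 1) (Bp B) := by
    intro B hB P hP
    rw [mem_box]
    intro z
    have h0 : (0 : ℝ) ≤ Cr * (B : ℝ) ^ (1 / (d : ℝ)) := by positivity
    have hPh : Height.mulHeight P.rep ≤ B := by
      have h1 : P.mulHeight = Height.mulHeight P.rep := by
        conv_lhs => rw [← P.mk_rep]
        exact Projectivization.mulHeight_mk _
      rw [← h1]; exact hP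
    have h1 := hcoord (y P (e.symm z).1) (Cr * (B : ℝ) ^ (1 / (d : ℝ))) h0 (fun w => by
      refine (hysize P w _).trans (mul_le_mul_of_nonneg_left ?_ hCr.le)
      exact Real.rpow_le_rpow (Height.mulHeight_pos _).le hPh (by positivity)) (e.symm z).2
    have h2 : |((u P z : ℤ) : ℝ)| ≤ (Bp B : ℝ) := by
      refine h1.trans (le_trans ?_ (Nat.le_ceil _))
      rw [← mul_assoc]
      exact mul_le_mul_of_nonneg_right (le_max_right _ _) (by positivity)
    have h3 : ((|u P z| : ℤ) : ℝ) ≤ ((Bp B : ℤ) : ℝ) := by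
      push_cast
      exact h2
    exact_mod_cast h3
  set L : ℝ := Real.log (2 * A₂) with hL
  have hL0 : 0 ≤ L := Real.log_nonneg (by linarith)
  obtain ⟨B₀, hB₀⟩ : ∃ B₀ : ℕ, ∀ B : ℕ, B₀ ≤ B →
      Λ * (t * η) * L + |θ₁| * (d * L) + d * Real.log Mr ≤ Δ / 4 * Real.log B := by
    have h1 : Filter.Tendsto (fun B : ℕ => Δ / 4 * Real.log B) Filter.atTop Filter.atTop :=
      (Real.tendsto_log_atTop.comp tendsto_natCast_atTop_atTop).const_mul_atTop (by positivity)
    exact Filter.eventually_atTop.mp (h1.eventually_ge_atTop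
      (Λ * (t * η) * L + |θ₁| * (d * L) + d * Real.log Mr))
  set c'' : ℝ := min c' 1 with hc''
  have hc''0 : 0 < c'' := lt_min hc' one_pos
  have hc''1 : c'' ≤ 1 := min_le_right _ _
  have hd1r : (1 : ℝ) ≤ d := by exact_mod_cast hd1
  have hn2 : (2 : ℝ) ≤ n := by
    have : 2 ≤ n := by omega
    exact_mod_cast this
  set κ : ℝ := ((n : ℝ) - 1) * d with hκ
  have hNc : 0 ≤ κ - c'' := by
    rw [hκ]
    nlinarith
  set Bm : ℕ := ⌈2 * A₂ * (B₀ : ℝ)⌉₊ with hBm
  refine ⟨c'' / d, by positivity, C' * (2 * A₂) ^ (κ - c'') +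
    (2 * Bm + 1 : ℕ) ^ (N + 1), fun B hB => ?_⟩
  have hB1 : (1 : ℝ) ≤ B := by exact_mod_cast hB
  have hBpos : (0 : ℝ) < B := by linarith
  obtain ⟨hb1, hb2, hb3⟩ := hBp1 B hB
  have hexp : (0 : ℝ) ≤ (n : ℝ) - 1 - c'' / d := by
    have h1 : c'' / d ≤ 1 := by
      rw [div_le_one hd0]
      have : (1 : ℝ) ≤ d := by exact_mod_cast hd1
      linarith
    linarith
  have hBexp : 1 ≤ (B : ℝ) ^ ((n : ℝ) - 1 - c'' / d) := Real.one_le_rpow hB1 hexp
  by_cases hBB : B₀ ≤ B
  swap
  · -- small `B`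
    rw [not_le] at hBB
    have hfin : ((box (N + 1) (Bp B) : Finset (Fin (N + 1) → ℤ)) : Set (Fin (N + 1) → ℤ)).Finite :=
      Finset.finite_toSet _
    have hfin' := hfin.preimage hinj.injOn
    refine ⟨hfin'.toFinset, ?_, ?_⟩
    · have h1 : hfin'.toFinset.card ≤ (box (N + 1) (Bp B)).card := by
        refine Finset.card_le_card_of_injOn u ?_ hinj.injOn
        intro P hP
        have := (Set.Finite.mem_toFinset hfin').1 hP
        exact this
      rw [card_box] at h1
      have h2 : Bp B ≤ Bm := by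
        have h3 : (Bp B : ℝ) ≤ Bm := by
          refine hb3.trans (le_trans ?_ (Nat.le_ceil _))
          refine mul_le_mul_of_nonneg_left ?_ (by linarith)
          calc (B : ℝ) ^ (1 / (d : ℝ)) ≤ (B : ℝ) ^ (1 : ℝ) :=
                Real.rpow_le_rpow_of_exponent_le hB1 (by
                  rw [div_le_one hd0]; exact_mod_cast hd1)
            _ = B := Real.rpow_one _
            _ ≤ B₀ := by exact_mod_cast hBB.le
        exact_mod_cast h3
      have h3 : hfin'.toFinset.card ≤ (2 * Bm + 1) ^ (N + 1) :=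
        h1.trans (Nat.pow_le_pow_left (by omega) _)
      have h4 : (hfin'.toFinset.card : ℝ) ≤ ((2 * Bm + 1 : ℕ) : ℝ) ^ (N + 1) := by
        exact_mod_cast h3
      have h5 : (0 : ℝ) ≤ C' * (2 * A₂) ^ (κ - c'') := by positivity
      calc (hfin'.toFinset.card : ℝ) ≤ (C' * (2 * A₂) ^ (κ - c'') +
            ((2 * Bm + 1 : ℕ) : ℝ) ^ (N + 1)) * 1 := by linarith
        _ ≤ _ := mul_le_mul_of_nonneg_left hBexp (by positivity)
    · intro P hPQ hP hPZ
      exfalso
      apply hPZ
      rw [Set.Finite.mem_toFinset]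
      exact hbox B hB P hP
  · -- large `B`
    have hfin := finite_sub (N + 1) (Bp B) (fun u => bil A (vec e u) (vec e u) = 0 ∧
      (((∃ j, eval (vec e u) (F j) = 0) ∨
      truncI S (fun j => eval (vec e u) (F j)) < d * θ₁ * Real.log (Bp B)) ∨
      ∃ l, eval (vec e u) (F' l) = 0 ∨ η * Real.log (Bp B) <
        idealHeight (F' l) (G' l) (k' l) (e' l) (fun i => (vec e u i : K))))
    have hfin' := hfin.preimage hinj.injOn
    refine ⟨hfin'.toFinset, ?_, ?_⟩
    · have h1 : hfin'.toFinset.card ≤ hfin.toFinset.card := by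
        refine Finset.card_le_card_of_injOn u ?_ hinj.injOn
        intro P hP
        have := (Set.Finite.mem_toFinset hfin').1 hP
        rw [Finset.mem_coe, Set.Finite.mem_toFinset]
        exact this
      have h2 := hcount (Bp B) hb1
      rw [Set.ncard_eq_toFinset_card _ hfin] at h2
      have h3 : (hfin'.toFinset.card : ℝ) ≤ hfin.toFinset.card := by exact_mod_cast h1
      have hbr : (1 : ℝ) ≤ Bp B := by exact_mod_cast hb1
      have h4 : (Bp B : ℝ) ^ (κ - c') ≤ (Bp B : ℝ) ^ (κ - c'') :=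
        Real.rpow_le_rpow_of_exponent_le hbr (by
          have := min_le_left c' 1
          linarith)
      have h5 : (Bp B : ℝ) ^ (κ - c'') ≤
          (2 * A₂ * (B : ℝ) ^ (1 / (d : ℝ))) ^ (κ - c'') :=
        Real.rpow_le_rpow (by linarith) hb3 hNc
      have h6 : (2 * A₂ * (B : ℝ) ^ (1 / (d : ℝ))) ^ (κ - c'') =
          (2 * A₂) ^ (κ - c'') * (B : ℝ) ^ ((n : ℝ) - 1 - c'' / d) := by
        rw [Real.mul_rpow (by linarith) (by positivity), ← Real.rpow_mul hBpos.le]
        congr 2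
        rw [hκ]
        field_simp
      have h7 : (0 : ℝ) ≤ ((2 * Bm + 1 : ℕ) : ℝ) ^ (N + 1) := by positivity
      calc (hfin'.toFinset.card : ℝ) ≤ hfin.toFinset.card := h3
        _ ≤ C' * (Bp B : ℝ) ^ (κ - c') := h2
        _ ≤ C' * ((2 * A₂) ^ (κ - c'') * (B : ℝ) ^ ((n : ℝ) - 1 - c'' / d)) := by
            rw [← h6]
            exact mul_le_mul_of_nonneg_left (h4.trans h5) hC'.le
        _ = (C' * (2 * A₂) ^ (κ - c'')) * (B : ℝ) ^ ((n : ℝ) - 1 - c'' / d) := by
            ring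
        _ ≤ _ := by
            refine mul_le_mul_of_nonneg_right ?_ (by positivity)
            linarith
    · intro P hPQ hP hPZ
      have hPbox := hbox B hB P hP
      have hyQ : bil A (vec e (u P)) (vec e (u P)) = 0 := by
        rw [hvec]
        apply RingOfIntegers.coe_injective
        have h1 := coe_bil A (y P) (y P)
        have hAK : ∀ i j, toM A i j = toM A j i := fun i j => by
          show (A i j : K) = A j i
          rw [hA]
        rw [hysm, bil_smul_left, bil_symm hAK, bil_smul_left] at h1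
        have h2 : bil (toM A) P.rep P.rep = 0 := hPQ
        rw [h2, mul_zero, mul_zero] at h1
        exact h1.trans (map_zero (algebraMap (𝓞 K) K)).symm
      have hgood : ¬ (((∃ j, eval (vec e (u P)) (F j) = 0) ∨
          truncI S (fun j => eval (vec e (u P)) (F j)) < d * θ₁ * Real.log (Bp B)) ∨
          ∃ l, eval (vec e (u P)) (F' l) = 0 ∨ η * Real.log (Bp B) <
            idealHeight (F' l) (G' l) (k' l) (e' l) (fun i => (vec e (u P) i : K))) := by
        intro h
        apply hPZ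
        rw [Set.Finite.mem_toFinset]
        exact ⟨hPbox, hyQ, h⟩
      rw [not_or, not_or] at hgood
      obtain ⟨⟨hg1, hg2⟩, hg3⟩ := hgood
      push Not at hg1 hg2 hg3
      simp only [hvec] at hg1 hg2 hg3
      have hFrep : ∀ j, aeval P.rep (F j) ≠ 0 := by
        intro j h0
        apply hg1 j
        have h1 := aeval_coe (F j) (y P)
        rw [hysm, aeval_smul (F j) (hhom j), h0, mul_zero] at h1
        exact RingOfIntegers.coe_injective (h1.symm.trans (map_zero (algebraMap (𝓞 K) K)).symm)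
      refine ⟨hFrep, ?_⟩
      have hI : ∀ l, idealHeight (F' l) (G' l) (k' l) (e' l) P.rep ≤ η * Real.log (Bp B) := by
        intro l
        have h1 := (hg3 l).2
        rw [hysm, idealHeight_smul _ _ (hF' l) (hG' l) (htt P)] at h1
        exact h1
      have hIs : Λ * ∑ l, idealHeight (F' l) (G' l) (k' l) (e' l) P.rep ≤
          Λ * (t * η) * Real.log (Bp B) := by
        have h1 : ∑ l, idealHeight (F' l) (G' l) (k' l) (e' l) P.rep ≤
            t * (η * Real.log (Bp B)) := by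
          refine (Finset.sum_le_sum fun l _ => hI l).trans (le_of_eq ?_)
          rw [Finset.sum_const, Finset.card_univ, Fintype.card_fin, nsmul_eq_mul]
        calc Λ * ∑ l, idealHeight (F' l) (G' l) (k' l) (e' l) P.rep ≤
              Λ * (t * (η * Real.log (Bp B))) := mul_le_mul_of_nonneg_left h1 hΛ
          _ = _ := by ring
      have hT1 := trunc_transfer S F k (y P) hg1 (Nn P) (hNn P) (hNmem P)
      rw [hysm, truncatedCount_smul S F k hhom (htt P)] at hT1
      have hMr : Real.log (Nn P) ≤ Real.log Mr :=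
        Real.log_le_log (by exact_mod_cast hNn P) (by exact_mod_cast hNM P)
      have hlogb1 : Real.log B ≤ d * Real.log (Bp B) := by
        have h1 : Real.log ((B : ℝ) ^ (1 / (d : ℝ))) ≤ Real.log (Bp B) :=
          Real.log_le_log (by positivity) hb2
        rw [Real.log_rpow hBpos] at h1
        have h2 := mul_le_mul_of_nonneg_left h1 hd0.le
        have h3 : (d : ℝ) * (1 / d * Real.log B) = Real.log B := by field_simp
        linarith
      have hlogb2 : d * Real.log (Bp B) ≤ Real.log B + d * L := by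
        have h1 : Real.log (Bp B) ≤ Real.log (2 * A₂ * (B : ℝ) ^ (1 / (d : ℝ))) :=
          Real.log_le_log (by exact_mod_cast hb1) hb3
        rw [Real.log_mul (by linarith) (by positivity), Real.log_rpow hBpos] at h1
        have h2 := mul_le_mul_of_nonneg_left h1 hd0.le
        have h3 : (d : ℝ) * (Real.log (2 * A₂) + 1 / d * Real.log B) =
            Real.log B + d * Real.log (2 * A₂) := by field_simp; ring
        rw [h3] at h2
        exact h2
      have hθ1 : θ₁ * Real.log B - |θ₁| * (d * L) ≤ d * θ₁ * Real.log (Bp B) := by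
        have h1 : 0 ≤ d * Real.log (Bp B) - Real.log B := by linarith
        have h2 : d * Real.log (Bp B) - Real.log B ≤ d * L := by linarith
        have h3 : -(|θ₁| * (d * L)) ≤ θ₁ * (d * Real.log (Bp B) - Real.log B) := by
          have h4 : |θ₁ * (d * Real.log (Bp B) - Real.log B)| ≤ |θ₁| * (d * L) := by
            rw [abs_mul, abs_of_nonneg h1]
            exact mul_le_mul_of_nonneg_left h2 (abs_nonneg _)
          exact (abs_le.1 h4).1
        have h5 : d * θ₁ * Real.log (Bp B) = θ₁ * Real.log B +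
            θ₁ * (d * Real.log (Bp B) - Real.log B) := by ring
        linarith
      have hη2 : Λ * (t * η) * Real.log (Bp B) ≤ Δ / 8 * Real.log B + Λ * (t * η) * L := by
        have h0 : 0 ≤ Λ * (t * η) := by positivity
        have h1 : Real.log (Bp B) ≤ Real.log B / d + L := by
          rw [← sub_le_iff_le_add, le_div_iff₀ hd0]
          linarith
        have h2 := mul_le_mul_of_nonneg_left h1 h0
        have h3 : Λ * (t * η) * (Real.log B / d) ≤ Δ / 8 * Real.log B := by
          have h4 : Λ * (t * η) * (Real.log B / d) ≤ d * (Δ / 8) * (Real.log B / d) :=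
            mul_le_mul_of_nonneg_right hηd (div_nonneg (Real.log_nonneg hB1) hd0.le)
          refine h4.trans (le_of_eq ?_)
          field_simp
        linarith
      have h9 := hB₀ B hBB
      have h10 : θ₁ * Real.log B = θ * Real.log B + Δ / 2 * Real.log B := by rw [hθ₁]; ring
      have h11 : (d : ℝ) * Real.log (Nn P) ≤ d * Real.log Mr :=
        mul_le_mul_of_nonneg_left hMr hd0.le
      have h12 : 0 ≤ Δ * Real.log B := mul_nonneg hΔ0.le (Real.log_nonneg hB1)
      linarith

end Pool.Agent.R366.QD
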